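import Pool.Agent.Helper4.FFR.Main

/-! FLAG ROWS: consequences. Constant numbers give typically constant exponents; the Jacobian is the product of the
diagonal; refinement of the label by a partition without entropy. -/

set_option autoImplicit false

namespace Pool.Agent.Helper4.FFR

open Finset Filter Topology Matrix Pool.Agent.Helper69.RK Pool.Agent.Helper31.EC Pool.Agent.Helper31.EC.Sp
open Pool.Agent.Helper40.EL Pool.Agent.Helper89.LX Pool.Agent.Helper3.LF Pool.Agent.Helper84.MT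
open Pool.Agent.Helper7.GZ Pool.Agent.Helper48.ROW Pool.Agent.Helper26.MZ Pool.Agent.Helper89.RAT
open Pool.Agent.Helper14.MC (gx vx vol_eq vx_UB)

noncomputable section

/-- a bounded function whose means on all events are equal to `w` is typically equal to `w` -/
theorem typ_const (T : Sp) (f : ∀ k, (T.F k).Ω → ℝ) (C : ℝ) (hf : ∀ᶠ k in UF, ∀ ω, (T.F k).μ ω ≠ 0 → |f k ω| ≤ C)
    (w : ℝ) (h : ∀ B : ∀ k, (T.F k).Ω → Prop, 0 < ul (T.pr B) → mnB T B f = w) (e : ℝ) (he : 0 < e) :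
    Typ (S := T) (fun k ω => |f k ω - w| ≤ e) := by
  have h1 := typ_ge T f C hf w (fun B hB => (h B hB).ge) e he
  have h2 := typ_ge T (fun k ω => -f k ω) C (by
    filter_upwards [hf] with k hk ω hω
    rw [abs_neg]
    exact hk ω hω) (-w) (fun B hB => by
      have h3 := h B hB
      have hU := UB_mean T f C hf B
      have e1 : ul (fun k => ∑ ω, ((T.F k).rest (B k)).μ ω * -f k ω) = -mnB T B f := by
        refine ul_eq (Tendsto.congr (fun k => ?_) (ul_tendsto hU).neg)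
        have e2 : ∑ ω, ((T.F k).rest (B k)).μ ω * -f k ω = -∑ ω, ((T.F k).rest (B k)).μ ω * f k ω := by
          rw [← Finset.sum_neg_distrib]
          exact Finset.sum_congr rfl fun ω _ => by ring
        exact e2.symm
      rw [e1, h3]) e he
  refine Typ.mono (S := T) (Typ.and (S := T) h1 h2) ?_
  refine Eventually.of_forall fun k ω _ hh => ?_
  obtain ⟨a, b⟩ := hh
  rw [abs_le]
  constructor <;> linarith

/-- the determinant of the Jacobian matrix of triangular rows -/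
theorem jac_tri {M : ℕ} {P : Fin M → MvPolynomial (Fin M) ℝ} (h : ∀ j, ∀ a ∈ (P j).vars, a ≤ j) (x : Fin M → ℝ) :
    (jac P x).det = ∏ j, MvPolynomial.eval x (MvPolynomial.pderiv j (P j)) := by
  apply Matrix.det_of_isLowerTriangular
  intro i a hia
  have h1 : i < a := hia
  have h2 : a ∉ (P i).vars := fun ha => absurd (h i a ha) (not_le.2 h1)
  show MvPolynomial.eval x (MvPolynomial.pderiv a (P i)) = 0
  rw [MvPolynomial.pderiv_eq_zero_of_notMem_vars h2, map_zero]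

namespace FR

variable {S : Sp} {M : ℕ} {E : ℕ → ℕ} {ι : Type} [Finite ι] {s : MSys S M E ι} {D : ℕ} {c u : ℝ}
  {x : ∀ k, FD (S.F k) (Mon M D)} (F : FR s D c u x)

theorem abs_bd (hc : 0 ≤ c) (j : Fin M) : ∀ᶠ k in UF, ∀ ω, (F.L.sp.F k).μ ω ≠ 0 → |F.lam j k ω| ≤ F.C := by
  filter_upwards [F.bd] with k hk ω hω
  obtain ⟨a, b⟩ := hk ω hω j
  rw [abs_of_nonneg (hc.trans a)]
  exact b

/-- CONSTANT NUMBERS: an inner coordinate -/
theorem const_int (hc : 0 ≤ c) {w : ℝ} (j : Fin M) (hj : j.val + 1 < M)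
    (h : ∀ B : ∀ k, (F.L.sp.F k).Ω → Prop, 0 < ul (F.L.sp.pr B) →
      HS s F.L B (j.val + 1) j.isLt - HS s F.L B j.val j.isLt.le = 1 - w) (e : ℝ) (he : 0 < e) :
    Typ (S := F.L.sp) (fun k (ω : (F.L k).T.Ω) => |F.lam j k ω - w| ≤ e) :=
  typ_const F.L.sp (F.lam j) F.C (F.abs_bd hc j) w (fun B hB => by
    rw [F.int B hB j hj]
    have := h B hB
    linarith) e he

/-- CONSTANT NUMBERS: the last coordinate -/
theorem const_lst (hc : 0 ≤ c) {w : ℝ} (j : Fin M) (hj : j.val + 1 = M)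
    (h : ∀ (B : ∀ k, (F.L.sp.F k).Ω → Prop) (hB : 0 < ul (F.L.sp.pr B)),
      (s.im F.L.pj B hB).vol D c - HS s F.L B j.val j.isLt.le = 1 - w) (e : ℝ) (he : 0 < e) :
    Typ (S := F.L.sp) (fun k (ω : (F.L k).T.Ω) => |F.lam j k ω - w| ≤ e) :=
  typ_const F.L.sp (F.lam j) F.C (F.abs_bd hc j) w (fun B hB => by
    rw [F.lst B hB j hj]
    have := h B hB
    linarith) e he

/-- THE JACOBIAN is the product of the derivatives -/
theorem det_eq (k : ℕ) (ω : (F.L k).T.Ω) : (jac (F.R.p k ω) (s.Q.v k ((F.L k).p.π ω))).det =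
    ∏ j, MvPolynomial.eval (s.Q.v k ((F.L k).p.π ω)) (MvPolynomial.pderiv j (F.R.p k ω j)) :=
  jac_tri (F.tri k ω) _

theorem det_bds : ∀ᶠ k in UF, ∀ ω, (F.L k).T.μ ω ≠ 0 →
    |(jac (F.R.p k ω) (s.Q.v k ((F.L k).p.π ω))).det| ≤ 2 ^ ((∑ j, F.lam j k ω) * (S.F k).n) ∧
    2 ^ ((∑ j, F.lam j k ω) * (S.F k).n) ≤ F.C ^ M * |(jac (F.R.p k ω) (s.Q.v k ((F.L k).p.π ω))).det| := by
  filter_upwards [F.der] with k hk ω hω
  have h1 := hk ω hω
  have e1 : (2 : ℝ) ^ ((∑ j, F.lam j k ω) * (S.F k).n) = ∏ j, (2 : ℝ) ^ (F.lam j k ω * (S.F k).n) := by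
    rw [Finset.sum_mul, Real.rpow_sum_of_pos (by norm_num)]
  rw [F.det_eq, Finset.abs_prod, e1]
  constructor
  · exact Finset.prod_le_prod (fun j _ => abs_nonneg _) fun j _ => (h1 j).1
  · have e2 : F.C ^ M * ∏ j, |MvPolynomial.eval (s.Q.v k ((F.L k).p.π ω)) (MvPolynomial.pderiv j (F.R.p k ω j))| =
        ∏ j, (F.C * |MvPolynomial.eval (s.Q.v k ((F.L k).p.π ω)) (MvPolynomial.pderiv j (F.R.p k ω j))|) := by
      rw [Finset.prod_mul_distrib, Finset.prod_const, Finset.card_univ, Fintype.card_fin]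
    rw [e2]
    exact Finset.prod_le_prod (fun j _ => by positivity) fun j _ => (h1 j).2

/-- the lower bound of the Jacobian, in the form which the zoom in the rows asks for -/
theorem det_low : ∀ᶠ k in UF, ∀ ω, (F.L k).T.μ ω ≠ 0 →
    2 ^ (2 * (∑ j, F.lam j k ω) * (S.F k).n) ≤ (F.C ^ M) ^ 2 * (jac (F.R.p k ω) (s.Q.v k ((F.L k).p.π ω))).det ^ 2 := by
  filter_upwards [F.det_bds] with k hk ω hω
  have h1 := (hk ω hω).2
  have e1 : (2 : ℝ) ^ (2 * (∑ j, F.lam j k ω) * (S.F k).n) = (2 ^ ((∑ j, F.lam j k ω) * (S.F k).n)) ^ 2 := by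
    rw [← Real.rpow_natCast, ← Real.rpow_mul (by norm_num)]
    congr 1
    push_cast
    ring
  rw [e1, ← sq_abs (jac (F.R.p k ω) (s.Q.v k ((F.L k).p.π ω))).det, ← mul_pow]
  exact pow_le_pow_left₀ (by positivity) h1 2

/-- tame two-sided bounds from typically constant exponents -/
theorem der_const {w : Fin M → ℝ}
    (h : ∀ (j : Fin M) (e : ℝ), 0 < e → Typ (S := F.L.sp) (fun k (ω : (F.L k).T.Ω) => |F.lam j k ω - w j| ≤ e)) :
    ∃ K : ℕ → ℝ, S.Sub K ∧ Typ (S := F.L.sp) (fun k (ω : (F.L k).T.Ω) => ∀ j : Fin M,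
      |MvPolynomial.eval (s.Q.v k ((F.L k).p.π ω)) (MvPolynomial.pderiv j (F.R.p k ω j))| ≤
        K k * 2 ^ (w j * (S.F k).n) ∧
      2 ^ (w j * (S.F k).n) ≤
        K k * |MvPolynomial.eval (s.Q.v k ((F.L k).p.π ω)) (MvPolynomial.pderiv j (F.R.p k ω j))|) := by
  have h1 : ∀ e : ℝ, 0 < e → Typ (S := F.L.sp) (fun k (ω : (F.L k).T.Ω) => ∀ j : Fin M, |F.lam j k ω - w j| ≤ e) :=
    fun e he => Typ_all (S := F.L.sp) (fun (j : Fin M) k (ω : (F.L k).T.Ω) => |F.lam j k ω - w j| ≤ e)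
      fun j => h j e he
  set Pf : ∀ k, (F.L k).T.Ω → ℝ → Prop := fun k ω K => ∀ j : Fin M,
    (2 : ℝ) ^ (F.lam j k ω * (S.F k).n) ≤ K * 2 ^ (w j * (S.F k).n) ∧
    (2 : ℝ) ^ (w j * (S.F k).n) ≤ K * 2 ^ (F.lam j k ω * (S.F k).n) with hPf
  obtain ⟨K, hK, hT⟩ := Pool.Agent.Helper89.LX.typ_diag (S := F.L.sp) Pf (fun η hη => by
    filter_upwards [(h1 η hη).eventually (gt_mem_nhds hη)] with k hk
    have hn : (F.L.sp.F k).n = (S.F k).n := sp_n F.L k
    rw [hn]
    refine le_trans (FSp.pb_mono _ ?_) hk.le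
    intro ω _ h2 h3
    apply h2
    intro j
    have h4 := abs_le.1 (h3 j)
    have hn0 := (S.F k).pos
    constructor
    · rw [← Real.rpow_add (by norm_num)]
      apply Real.rpow_le_rpow_of_exponent_le (by norm_num)
      nlinarith [h4.2]
    · rw [← Real.rpow_add (by norm_num)]
      apply Real.rpow_le_rpow_of_exponent_le (by norm_num)
      nlinarith [h4.1])
  have hKS : S.Sub K := (sp_Sub F.L).mp hK
  have hC := F.hC
  refine ⟨fun k => F.C * (K k + 1), (S.Sub_const (by linarith)).mul (hKS.add (S.Sub_const zero_le_one)), ?_⟩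
  refine Typ.mono (S := F.L.sp) hT ?_
  filter_upwards [F.der, hKS.1] with k a b ω hω h2 j
  obtain ⟨c1, c2⟩ := a ω hω j
  obtain ⟨d1, d2⟩ := h2 j
  have hp : (0 : ℝ) < 2 ^ (w j * (S.F k).n) := by positivity
  have hq : (0 : ℝ) < 2 ^ (F.lam j k ω * (S.F k).n) := by positivity
  constructor
  · refine c1.trans (d1.trans (mul_le_mul_of_nonneg_right ?_ hp.le))
    nlinarith
  · refine d2.trans ((mul_le_mul_of_nonneg_left c2 b).trans ?_)
    have hz := abs_nonneg (MvPolynomial.eval (s.Q.v k ((F.L k).p.π ω)) (MvPolynomial.pderiv j (F.R.p k ω j)))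
    have e1 : K k * (F.C * |MvPolynomial.eval (s.Q.v k ((F.L k).p.π ω)) (MvPolynomial.pderiv j (F.R.p k ω j))|) =
        F.C * K k * |MvPolynomial.eval (s.Q.v k ((F.L k).p.π ω)) (MvPolynomial.pderiv j (F.R.p k ω j))| := by ring
    rw [e1]
    apply mul_le_mul_of_nonneg_right _ hz
    nlinarith

end FR

end

end Pool.Agent.Helper4.FFR
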