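import Pool.Agent.Helper4.FFR.Use
import Pool.Agent.Helper81.MT.Trn
import Pool.Agent.Helper4.VZ.Fib

/-! FLAG ROWS AT A LOWER RESOLUTION: rows of the truncation of a system as rows of the system, rows over a refinement. -/

set_option autoImplicit false

namespace Pool.Agent.Helper4.FFR

open Finset Filter Topology Matrix Pool.Agent.Helper69.RK Pool.Agent.Helper31.EC Pool.Agent.Helper31.EC.Sp
open Pool.Agent.Helper40.EL Pool.Agent.Helper89.LX Pool.Agent.Helper3.LF Pool.Agent.Helper84.MT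
open Pool.Agent.Helper7.GZ Pool.Agent.Helper48.ROW Pool.Agent.Helper26.MZ Pool.Agent.Helper89.RAT
open Pool.Agent.Helper14.MC (gx vx vol_eq vx_UB)
open Pool.Agent.Helper52.SL (untL tnL nul_trn cellv_chg)

noncomputable section

variable {S : Sp} {M M' : ℕ}

/-- subexponential constants of the truncated space -/
theorem sub_chg {r : ℝ} {h0 : 0 < r} {K : ℕ → ℝ} (hK : (S.chg S.tr r h0).Sub K) : S.Sub K := by
  refine ⟨hK.1, ?_⟩
  have h1 := hK.2.const_mul r
  rw [mul_zero] at h1
  refine h1.congr fun k => ?_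
  show r * (Real.logb 2 (K k + 2) / (r * (S.F k).n)) = Real.logb 2 (K k + 2) / (S.F k).n
  have := (S.F k).pos
  field_simp

/-! ### pull back along a refinement -/

/-- typical events over a refinement -/
theorem Rfn.typ {l L : Lab S} (r : Rfn L l) {P : ∀ k, (l k).T.Ω → Prop} (h : Typ (S := l.sp) P) :
    Typ (S := L.sp) (fun k (ω : (L k).T.Ω) => P k ((r.q k).π ω)) := by
  refine (Tendsto.congr (fun k => ?_) h)
  exact (pb_push (r.q k) (fun ω => ¬ P k ω)).symm

/-- rows over a refinement of the label -/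
def Rows.rf {Q : S.VV M} {l L : Lab S} {D : ℕ} {Λ u : ℝ} (R : Rows Q l M' D Λ u) (r : Rfn L l) :
    Rows Q L M' D Λ u where
  p := fun k ω => R.p k ((r.q k).π ω)
  deg := fun k ω j => R.deg k _ j
  fn := by
    filter_upwards [R.fn] with k hk ω ω' a b c d
    exact hk _ _ ((r.q k).supp ω a) ((r.q k).supp ω' b) (((r.q k).hZ ω ω' a b).1 c) (r.hV k ω ω' a b c d)
  cf := by
    obtain ⟨K, hK, h⟩ := R.cf
    refine ⟨K, hK, ?_⟩
    filter_upwards [h] with k hk ω hω j a
    exact hk _ ((r.q k).supp ω hω) j a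
  bd := by
    obtain ⟨K, hK, h⟩ := R.bd
    refine ⟨K, hK, Typ.mono (S := L.sp) (r.typ h) (Eventually.of_forall fun k ω hω h2 j => ?_)⟩
    have h3 := h2 j
    rw [r.hπ k ω hω] at h3
    exact h3
  lp := fun K0 hK0 => by
    obtain ⟨K, hK, h⟩ := R.lp K0 hK0
    refine ⟨K, hK, Typ.mono (S := L.sp) (r.typ h) (Eventually.of_forall fun k ω hω h2 y hy j => ?_)⟩
    have e := r.hπ k ω hω
    have h3 := h2 y (fun i => by
      rw [e]
      exact hy i) j
    rw [e] at h3
    exact h3

/-! ### a polynomial on a smaller cell -/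

/-- the increment of a polynomial on a shorter segment -/
theorem seg_small (D : ℕ) (f : MvPolynomial (Fin M) ℝ) (hf : f.totalDegree ≤ D) (x v : Fin M → ℝ) {A t : ℝ}
    (h0 : 0 ≤ t) (h1 : t ≤ 1) (h : ∀ s : ℝ, 0 ≤ s → s ≤ 1 →
      |MvPolynomial.eval (fun i => x i + s * v i) f - MvPolynomial.eval x f| ≤ A) :
    |MvPolynomial.eval (fun i => x i + t * v i) f - MvPolynomial.eval x f| ≤
      Cu D * A * t := by
  set q : Polynomial ℝ := lnp x v f - Polynomial.C (MvPolynomial.eval x f) with hq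
  have e1 : ∀ s : ℝ, q.eval s = MvPolynomial.eval (fun i => x i + s * v i) f - MvPolynomial.eval x f := fun s => by
    rw [hq, Polynomial.eval_sub, lnp_eval, Polynomial.eval_C]
  have hdeg : q.natDegree ≤ D := by
    refine (Polynomial.natDegree_sub_le _ _).trans ?_
    rw [Polynomial.natDegree_C]
    exact max_le ((lnp_deg x v f).trans hf) (Nat.zero_le _)
  have h2 : ∀ s ∈ Set.Icc (0 : ℝ) 1, |(Polynomial.derivative q).eval s| ≤ Cu D * A := by
    intro s hs
    have h3 := Pool.Agent.Helper4.VZ.markov D q hdeg 0 1 A s (by norm_num) hs.1 hs.2 (fun w hw hw' => by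
      rw [e1]
      exact h w hw hw')
    rw [sub_zero, one_mul] at h3
    exact h3
  have h4 := Convex.norm_image_sub_le_of_norm_deriv_le (f := fun s => q.eval s) (s := Set.Icc (0 : ℝ) 1)
    (C := Cu D * A) (x := 0) (y := t) (fun s _ => q.differentiableAt)
    (fun s hs => by
      rw [Polynomial.deriv, Real.norm_eq_abs]
      exact h2 s hs) (convex_Icc 0 1) ⟨le_rfl, zero_le_one⟩ ⟨h0, h1⟩
  simp only [Real.norm_eq_abs, sub_zero] at h4
  rw [abs_of_nonneg h0] at h4
  have e2 : q.eval 0 = 0 := by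
    rw [e1]
    simp
  rw [e2, sub_zero, e1] at h4
  exact h4

/-- ROWS OF THE TRUNCATION as rows of the system -/
def Rows.untrn {Q : S.VV M} {r : ℝ} {h0 : 0 < r} (h1 : r ≤ 1) {l : Lab (S.chg S.tr r h0)} {D : ℕ} {Λ u : ℝ}
    (R : Rows (Q.chg S.tr r h0) l M' D Λ u) : Rows Q (untL l) M' D (r * Λ) (1 - r + r * u) where
  p := fun k (ω : (l k).T.Ω) => R.p k ω
  deg := fun k (ω : (l k).T.Ω) j => R.deg k ω j
  fn := by
    filter_upwards [R.fn] with k hk ω ω' a b c d
    exact hk ω ω' a b c d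
  cf := by
    obtain ⟨K, hK, h⟩ := R.cf
    refine ⟨K, sub_chg hK, ?_⟩
    filter_upwards [h] with k hk ω hω j a
    have h2 : |(R.p k ω j).coeff a| ≤ K k * 2 ^ (Λ * (r * (S.F k).n)) := hk ω hω j a
    refine h2.trans (le_of_eq ?_)
    congr 2
    ring
  bd := by
    obtain ⟨K, hK, h⟩ := R.bd
    exact ⟨K, sub_chg hK, h⟩
  lp := fun L hL => by
    obtain ⟨K, hK, h⟩ := R.lp L (chg_sub S.tr r h0 hL)
    have hKS := sub_chg hK
    refine ⟨fun k => Cu D * K k, (S.Sub_const (zero_le_one.trans (Cu_one D))).mul hKS, ?_⟩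
    refine Typ.mono (S := (untL l).sp) h ?_
    refine Eventually.of_forall fun k => ?_
    intro (ω : (l k).T.Ω) hω h2 y hy j
    have hd := S.dl_pos (1 - r) k
    have hd1 : S.dl (1 - r) k ≤ 1 := by
      have h9 : S.dl (1 - r) k ≤ S.dl 0 k := S.dl_anti (by linarith) k
      rw [S.dl_zero] at h9
      exact h9
    have e1 : S.dl 1 k = S.dl (1 - r) k * S.dl r k := by
      rw [← S.dl_add]
      congr 1
      ring
    have e2 : (S.chg S.tr r h0).dl 1 k = S.dl r k := by rw [chg_dl, mul_one]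
    have e3 : (S.chg S.tr r h0).dl u k = S.dl (r * u) k := chg_dl _ _ _ _ _
    set x : Fin M → ℝ := Q.v k ((l k).p.π ω) with hx
    set v : Fin M → ℝ := fun i => (S.dl (1 - r) k)⁻¹ * (y i - x i) with hv
    have h3 := seg_small D (R.p k ω j) (R.deg k ω j) x v (A := K k * S.dl (r * u) k) hd.le hd1 (fun s hs hs' => by
      have h4 := h2 (fun i => x i + s * v i) (fun i => by
        show |x i + s * v i - x i| ≤ L k * (S.chg S.tr r h0).dl 1 k
        have h5 : |y i - x i| ≤ L k * S.dl 1 k := hy i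
        rw [add_sub_cancel_left, abs_mul, abs_of_nonneg hs, e2, hv]
        show s * |(S.dl (1 - r) k)⁻¹ * (y i - x i)| ≤ _
        rw [abs_mul, abs_of_pos (inv_pos.mpr hd)]
        have h6 : (S.dl (1 - r) k)⁻¹ * |y i - x i| ≤ L k * S.dl r k := by
          rw [inv_mul_le_iff₀ hd]
          refine h5.trans (le_of_eq ?_)
          rw [e1]
          ring
        have h7 : 0 ≤ (S.dl (1 - r) k)⁻¹ * |y i - x i| := mul_nonneg (inv_pos.mpr hd).le (abs_nonneg _)
        nlinarith) j
      rw [e3] at h4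
      exact h4)
    have e4 : (fun i => x i + S.dl (1 - r) k * v i) = y := by
      funext i
      show x i + S.dl (1 - r) k * ((S.dl (1 - r) k)⁻¹ * (y i - x i)) = y i
      rw [← mul_assoc, mul_inv_cancel₀ hd.ne', one_mul]
      ring
    rw [e4] at h3
    refine h3.trans (le_of_eq ?_)
    rw [S.dl_add]
    ring

end

end Pool.Agent.Helper4.FFR
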