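import Pool.Agent.Helper4.FFR.Pr

/-! FLAG ROWS (3): rows of a zoom as rows of the system. -/

set_option autoImplicit false

namespace Pool.Agent.Helper4.FFR

open Finset Filter Topology Matrix Pool.Agent.Helper69.RK Pool.Agent.Helper31.EC Pool.Agent.Helper31.EC.Sp
open Pool.Agent.Helper40.EL Pool.Agent.Helper89.LX Pool.Agent.Helper3.LF Pool.Agent.Helper84.MT
open Pool.Agent.Helper7.GZ Pool.Agent.Helper48.ROW Pool.Agent.Helper26.MZ Pool.Agent.Helper77.WDG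

noncomputable section

/-- the norm of a rescaled polynomial -/
theorem nrm_sb {M D : ℕ} (t : ℝ) (o : Fin M → ℝ) (f : MvPolynomial (Fin M) ℝ) (hf : f.totalDegree ≤ D) {T : ℝ}
    (hT : 1 ≤ T) (h : ∀ a, |t| + |o a| ≤ T) : nrm (sb id t o f) ≤ nrm f * T ^ D := by
  have e1 : sb id t o f = MvPolynomial.bind₁
      (fun a => MvPolynomial.C t * MvPolynomial.X (id a) + MvPolynomial.C (o a)) f := rfl
  rw [e1]
  refine nrm_bind_le hT hf _ fun i _ => ?_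
  refine (nrm_add_le _ _).trans ?_
  have h1 := nrm_mul_le (MvPolynomial.C t : MvPolynomial (Fin M) ℝ) (MvPolynomial.X (id i))
  rw [nrm_C, nrm_X, mul_one] at h1
  rw [nrm_C]
  exact (add_le_add h1 le_rfl).trans (h i)

variable {S : Sp} {M M' D : ℕ} {E : ℕ → ℕ} {ι : Type} {s : MSys S M E ι} (Z : ZM s)

/-- the corner of the cell -/
def cor (k : ℕ) (ω : (Z.l k).T.Ω) : Fin M → ℝ := fun a => -(⌊s.Q.v k ((Z.l k).p.π ω) a / S.dl Z.c k⌋ : ℝ)

/-- the polynomial in the old coordinates -/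
def unz (k : ℕ) (ω : (Z.l k).T.Ω) (q : MvPolynomial (Fin M) ℝ) : MvPolynomial (Fin M) ℝ :=
  sb id (S.dl Z.c k)⁻¹ (cor Z k ω) q

theorem unz_eval (k : ℕ) (ω : (Z.l k).T.Ω) (q : MvPolynomial (Fin M) ℝ) (y : Fin M → ℝ) :
    MvPolynomial.eval y (unz Z k ω q) =
      MvPolynomial.eval (fun a => (S.dl Z.c k)⁻¹ * y a + cor Z k ω a) q := eval_sb _ _ _ _ _

theorem unz_pt (k : ℕ) (ω : (Z.l k).T.Ω) :
    (fun a => (S.dl Z.c k)⁻¹ * s.Q.v k ((Z.l k).p.π ω) a + cor Z k ω a) = Z.sys.Q.v k ω := by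
  funext a
  have h1 := Z.fr_v s.Q k ω a
  refine Eq.trans ?_ h1.symm
  unfold cor
  rw [div_eq_inv_mul]
  ring

theorem unz_Q (k : ℕ) (ω : (Z.l k).T.Ω) (q : MvPolynomial (Fin M) ℝ) :
    MvPolynomial.eval (s.Q.v k ((Z.l k).p.π ω)) (unz Z k ω q) = MvPolynomial.eval (Z.sys.Q.v k ω) q := by
  rw [unz_eval, unz_pt]

/-- the derivative at the point -/
theorem unz_pd (k : ℕ) (ω : (Z.l k).T.Ω) (q : MvPolynomial (Fin M) ℝ) (a : Fin M) :
    MvPolynomial.eval (s.Q.v k ((Z.l k).p.π ω)) (MvPolynomial.pderiv a (unz Z k ω q)) =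
      (S.dl Z.c k)⁻¹ * MvPolynomial.eval (Z.sys.Q.v k ω) (MvPolynomial.pderiv a q) := by
  have h1 : MvPolynomial.pderiv a (unz Z k ω q) =
      MvPolynomial.C (S.dl Z.c k)⁻¹ * unz Z k ω (MvPolynomial.pderiv a q) :=
    pderiv_sb (σ := id) (S.dl Z.c k)⁻¹ (cor Z k ω) Function.injective_id a q
  rw [h1, map_mul, MvPolynomial.eval_C, unz_Q]

/-- ROWS OF THE ZOOM as rows of the system -/
def Rows.cl {L : Lab Z.sp} {Λ u : ℝ} (R : Rows Z.sys.Q L M' D Λ u) :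
    Rows s.Q (Z.cl L) M' D (Z.c * D + Z.e * Λ) (Z.e * u) where
  p := fun k (ω : (L k).T.Ω) j => unz Z k ((L k).p.π ω) (R.p k ω j)
  deg := fun k ω j => sb_deg _ _ _ _ _ (R.deg k ω j)
  fn := by
    filter_upwards [R.fn] with k hk ω ω' a b c d
    have a1 : (L k).T.μ ω ≠ 0 := a
    have b1 : (L k).T.μ ω' ≠ 0 := b
    have a2 : (Z.l k).T.μ ((L k).p.π ω) ≠ 0 := (L k).p.supp ω a1
    have b2 : (Z.l k).T.μ ((L k).p.π ω') ≠ 0 := (L k).p.supp ω' b1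
    have c1 : (Z.l k).V ((L k).p.π ω) ((L k).p.π ω') := d.1
    have c2 : (L k).V ω ω' := d.2
    have c3 : (S.F k).Z ((Z.l k).p.π ((L k).p.π ω)) ((Z.l k).p.π ((L k).p.π ω')) := c
    have c4 : (Z.l k).T.Z ((L k).p.π ω) ((L k).p.π ω') := ((Z.l k).p.hZ _ _ a2 b2).mpr c3
    have c5 : (L k).T.Z ω ω' := ((L k).p.hZ ω ω' a1 b1).mpr ⟨c1, c4⟩
    have e1 := hk ω ω' a1 b1 c5 c2
    have e2 := Z.cell k _ _ a2 b2 c1 c4
    have e3 : cor Z k ((L k).p.π ω) = cor Z k ((L k).p.π ω') := by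
      funext a
      have e4 : ⌊s.Q.v k ((Z.l k).p.π ((L k).p.π ω)) a / S.dl Z.c k⌋ =
        ⌊s.Q.v k ((Z.l k).p.π ((L k).p.π ω')) a / S.dl Z.c k⌋ := congrFun e2 a
      unfold cor
      rw [e4]
    funext j
    show sb id (S.dl Z.c k)⁻¹ (cor Z k ((L k).p.π ω)) (R.p k ω j) =
      sb id (S.dl Z.c k)⁻¹ (cor Z k ((L k).p.π ω')) (R.p k ω' j)
    rw [e1, e3]
  cf := by
    obtain ⟨K, hK, hb⟩ := R.cf
    obtain ⟨KQ, hKQ, hQ⟩ := s.Q.bd
    have hKS : S.Sub K := Z.Sub_sp.mpr hK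
    refine ⟨fun k => ((D : ℝ) + 1) ^ M * K k * (KQ k + 2) ^ D, ((S.Sub_const (by positivity)).mul hKS).mul
      (Sub_pow' (hKQ.add (S.Sub_const (by norm_num))) _), ?_⟩
    filter_upwards [hb, hQ, hKQ.1, hKS.1] with k h1 h2 h3 h4
    intro (ω : (L k).T.Ω) hω j a
    have hω1 : (L k).T.μ ω ≠ 0 := hω
    have hω2 : (Z.l k).T.μ ((L k).p.π ω) ≠ 0 := (L k).p.supp ω hω1
    have hω3 := (Z.l k).p.supp _ hω2
    have hd := S.dl_pos Z.c k
    have hd1 := Z.dl_c_le k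
    have hti : 1 ≤ (S.dl Z.c k)⁻¹ := (one_le_inv₀ hd).2 hd1
    have hT : 1 ≤ (KQ k + 2) * (S.dl Z.c k)⁻¹ := one_le_mul_of_one_le_of_one_le (by linarith) hti
    have hn : (Z.sp.F k).n = Z.e * (S.F k).n := Z.sp_n k
    have h5 := nrm_le_of_coeff (R.deg k ω j) (K := K k * 2 ^ (Λ * (Z.sp.F k).n)) (by positivity)
      (fun m => h1 ω hω1 j m)
    rw [Fintype.card_fin] at h5
    have h6 := nrm_sb (S.dl Z.c k)⁻¹ (cor Z k ((L k).p.π ω)) (R.p k ω j) (R.deg k ω j) hT (fun b => by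
      have h7 := h2 _ hω3 b
      have h8 : |cor Z k ((L k).p.π ω) b| ≤ |s.Q.v k ((Z.l k).p.π ((L k).p.π ω)) b / S.dl Z.c k| + 1 := by
        unfold cor
        rw [abs_neg]
        have f1 := Int.floor_le (s.Q.v k ((Z.l k).p.π ((L k).p.π ω)) b / S.dl Z.c k)
        have f2 := Int.lt_floor_add_one (s.Q.v k ((Z.l k).p.π ((L k).p.π ω)) b / S.dl Z.c k)
        rw [abs_le]
        constructor
        · have := neg_abs_le (s.Q.v k ((Z.l k).p.π ((L k).p.π ω)) b / S.dl Z.c k)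
          linarith
        · have := le_abs_self (s.Q.v k ((Z.l k).p.π ((L k).p.π ω)) b / S.dl Z.c k)
          linarith
      rw [abs_div, abs_of_pos hd] at h8
      have h9 : |s.Q.v k ((Z.l k).p.π ((L k).p.π ω)) b| / S.dl Z.c k ≤ KQ k * (S.dl Z.c k)⁻¹ := by
        rw [div_eq_mul_inv]
        exact mul_le_mul_of_nonneg_right h7 (by positivity)
      rw [abs_of_pos (inv_pos.mpr hd)]
      nlinarith)
    refine (coeff_le_nrm _ a).trans (h6.trans ?_)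
    have e1 : ((KQ k + 2) * (S.dl Z.c k)⁻¹) ^ D = (KQ k + 2) ^ D * 2 ^ (Z.c * D * (S.F k).n) := by
      rw [mul_pow]
      congr 1
      have e2 : (S.dl Z.c k)⁻¹ = 2 ^ (Z.c * (S.F k).n) := by
        unfold Sp.dl
        rw [← Real.rpow_neg (by norm_num), neg_neg]
      rw [e2, ← Real.rpow_natCast, ← Real.rpow_mul (by norm_num)]
      congr 1
      ring
    rw [e1]
    have e3 : (2 : ℝ) ^ ((Z.c * D + Z.e * Λ) * (S.F k).n) =
        2 ^ (Λ * (Z.sp.F k).n) * 2 ^ (Z.c * D * (S.F k).n) := by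
      rw [← Real.rpow_add (by norm_num), hn]
      congr 1
      ring
    rw [e3]
    calc nrm (R.p k ω j) * ((KQ k + 2) ^ D * 2 ^ (Z.c * D * (S.F k).n)) ≤
        (((D : ℝ) + 1) ^ M * (K k * 2 ^ (Λ * (Z.sp.F k).n))) * ((KQ k + 2) ^ D * 2 ^ (Z.c * D * (S.F k).n)) :=
          mul_le_mul_of_nonneg_right h5 (by positivity)
      _ = _ := by ring
  bd := by
    obtain ⟨K, hK, hT⟩ := R.bd
    refine ⟨K, Z.Sub_sp.mpr hK, ?_⟩
    refine typ_mono (S := (Z.cl L).sp) (E := fun k (ω : (L k).T.Ω) => ∀ j,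
      |MvPolynomial.eval (Z.sys.Q.v k ((L k).p.π ω)) (R.p k ω j)| ≤ K k) hT ?_
    refine Eventually.of_forall fun k ω _ hh j => ?_
    refine (congrArg (fun t : ℝ => |t| ≤ K k) (unz_Q Z k ((L k).p.π ω) (R.p k ω j))).mpr (hh j)
  lp := fun L₀ hL₀ => by
    obtain ⟨K, hK, hT⟩ := R.lp L₀ (Z.Sub_sp.mp hL₀)
    refine ⟨K, Z.Sub_sp.mpr hK, ?_⟩
    refine typ_mono (S := (Z.cl L).sp) (E := fun k (ω : (L k).T.Ω) => ∀ y : Fin M → ℝ,
      (∀ i, |y i - Z.sys.Q.v k ((L k).p.π ω) i| ≤ L₀ k * Z.sp.dl 1 k) → ∀ j,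
        |MvPolynomial.eval y (R.p k ω j) - MvPolynomial.eval (Z.sys.Q.v k ((L k).p.π ω)) (R.p k ω j)| ≤
          K k * Z.sp.dl u k) hT ?_
    refine Eventually.of_forall fun k ω _ hh y hy j => ?_
    have hd := S.dl_pos Z.c k
    have h1 := hh (fun a => (S.dl Z.c k)⁻¹ * y a + cor Z k ((L k).p.π ω) a) (fun i => by
      have h2 := congrFun (unz_pt Z k ((L k).p.π ω)) i
      rw [← h2]
      have h3 : (S.dl Z.c k)⁻¹ * y i + cor Z k ((L k).p.π ω) i -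
          ((S.dl Z.c k)⁻¹ * s.Q.v k ((Z.l k).p.π ((L k).p.π ω)) i + cor Z k ((L k).p.π ω) i) =
          (S.dl Z.c k)⁻¹ * (y i - s.Q.v k ((Z.l k).p.π ((L k).p.π ω)) i) := by ring
      rw [h3, abs_mul, abs_of_pos (inv_pos.mpr hd), ← Z.dl_eq k, inv_mul_eq_div, div_le_iff₀ hd]
      have h4 : L₀ k * (S.dl 1 k / S.dl Z.c k) * S.dl Z.c k = L₀ k * S.dl 1 k := by
        field_simp
      rw [h4]
      exact hy i) j
    have h5 := unz_eval Z k ((L k).p.π ω) (R.p k ω j) y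
    have h6 := unz_Q Z k ((L k).p.π ω) (R.p k ω j)
    have h7 : Z.sp.dl u k = S.dl (Z.e * u) k := Z.sp_dl' u k
    rw [h7, ← h5, ← h6] at h1
    exact h1

end

end Pool.Agent.Helper4.FFR
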