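import Pool.Agent.Helper4.FFR.Cl

/-! FLAG ROWS (4): a connected system: canonical forms of all projections over one label; the mean exponents of the
gradients of the last coordinates on events. -/

set_option autoImplicit false

namespace Pool.Agent.Helper4.FFR

open Finset Filter Topology Matrix Pool.Agent.Helper69.RK Pool.Agent.Helper31.EC Pool.Agent.Helper31.EC.Sp
open Pool.Agent.Helper40.EL Pool.Agent.Helper89.LX Pool.Agent.Helper3.LF Pool.Agent.Helper84.MT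
open Pool.Agent.Helper7.GZ Pool.Agent.Helper48.ROW Pool.Agent.Helper26.MZ Pool.Agent.Helper89.RAT
open Pool.Agent.Helper14.MC (cnt_vol)

noncomputable section

variable {S : Sp} {M D : ℕ} {E : ℕ → ℕ} {ι : Type}

theorem VV_ext {m : ℕ} {x y : S.VV m} (h : ∀ k ω i, x.v k ω i = y.v k ω i) : x = y := by
  cases x with
  | mk v b =>
    cases y with
    | mk v' b' =>
      have e : v = v' := by
        funext k ω i
        exact h k ω i
      subst e
      rfl

/-- all coordinates -/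
theorem prs_Q (t : MSys S M E ι) : (prs t le_rfl).Q = t.Q := by
  apply VV_ext
  intro k ω i
  rw [prs_v]
  rfl

theorem prs_cnd (t : MSys S M E ι) (c : ℝ) : (prs t le_rfl).cnd c = t.cnd c := by
  funext i
  rcases i with _ | i
  · show pcd (prs t le_rfl).Q = pcd t.Q
    rw [prs_Q]
  · rfl

theorem prs_can [Finite ι] {t : MSys S M E ι} {c : ℝ} {x : ∀ k, FD (S.F k) (Mon M D)} :
    (prs t le_rfl).IsCan D c x ↔ t.IsCan D c x := by
  unfold MSys.IsCan MSys.IsKap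
  rw [prs_Q, prs_cnd]

/-- canonical forms of all projections, with one common trivial refinement of their labels -/
structure Fms [Finite ι] (t : MSys S M E ι) (D : ℕ) where
  L : Lab S
  trv : Trv L
  x : ∀ N (_ : N ≤ M), ∀ k, FD (S.F k) (Mon N D)
  can : ∀ N (hN : N ≤ M), (prs t hN).IsCan D 0 (x N hN)
  R : ∀ N (hN : N ≤ M), Rfn L (lb (x N hN))

/-- they exist, over any trivial label -/
theorem exists_fms [Finite ι] {t : MSys S M E ι} (ht : t.Con 0) (D : ℕ) (l₀ : Lab S) (h₀ : Trv l₀) :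
    ∃ f : Fms t D, Nonempty (Rfn f.L l₀) := by
  have h1 : ∀ N : Fin (M + 1), ∃ x, (prs t (Nat.le_of_lt_succ N.2)).IsCan D 0 x := fun N => MSys.exists_can _ D 0
  choose x hx using h1
  have h2 : ∀ N : Fin (M + 1), Trv (lb (x N)) := fun N => ht _ (MSys.DMc.of_img (s := t) (hx N).2.1)
  obtain ⟨L, hL, ⟨R⟩⟩ := exists_common (fun N : Fin (M + 1) => lb (x N)) h2
  exact ⟨⟨L.join l₀, hL.join h₀, fun N hN => x ⟨N, Nat.lt_succ_of_le hN⟩, fun N hN => hx ⟨N, Nat.lt_succ_of_le hN⟩,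
    fun N hN => (Rfn.jl L l₀).trans (R ⟨N, Nat.lt_succ_of_le hN⟩)⟩, ⟨Rfn.jr l₀ L⟩⟩

namespace Fms

variable [Finite ι] {t : MSys S M E ι} (f : Fms t D)

/-- the forms over the common label -/
def y (N : ℕ) (hN : N ≤ M) : ∀ k, FD (S.F k) (Mon N D) := rfFD (f.x N hN) (f.R N hN)

theorem y_lb (N : ℕ) (hN : N ≤ M) : lbS (f.y N hN) = f.L := rfl

/-- the forms over the common label are canonical -/
theorem cy (ht : t.Con 0) (N : ℕ) (hN : N ≤ M) : (prs t hN).IsCan D 0 (f.y N hN) := by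
  refine ⟨rf_opt (f.can N hN).1 (f.R N hN) (f.trv.dm _), ?_⟩
  exact con_kap (MSys.Con.img ht _ _ _) (f.trv.dm _)

theorem cyM (ht : t.Con 0) : t.IsCan D 0 (f.y M le_rfl) := prs_can.1 (f.cy ht M le_rfl)

/-- the entropy of the first `N` coordinates on an event -/
def hh (B : ∀ k, (f.L.sp.F k).Ω → Prop) (N : ℕ) (hN : N ≤ M) : ℝ :=
  H (up1 (f.L.im B) (((prs t hN).Q.im f.L.pj B).dg 1))

/-- the volume of the hull of the first `N` coordinates on an event -/
def vv (B : ∀ k, (f.L.sp.F k).Ω → Prop) (N : ℕ) (hN : N ≤ M) : ℝ :=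
  vol ((prs t hN).Q.im f.L.pj B) D (reS (f.y N hN) B)

/-- the mean exponent of the last coordinate on an event -/
def zz (B : ∀ k, (f.L.sp.F k).Ω → Prop) (j : ℕ) (hj : j < M) : ℝ :=
  zx ((prs t (Nat.succ_le_of_lt hj)).Q.im f.L.pj B) (Fin.last j) (reS (f.y (j + 1) hj) B)

theorem hh_le (ht : t.Con 0) (hD : 1 ≤ D) {B : ∀ k, (f.L.sp.F k).Ω → Prop} (hB : 0 < ul (f.L.sp.pr B)) (N : ℕ)
    (hN : N ≤ M) : f.hh B N hN ≤ f.vv B N hN := by
  have hu := (f.cy ht N hN).re B hB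
  exact cnt_vol _ hD (reS (f.y N hN) B) hu.1.1

theorem hh_nonneg (B : ∀ k, (f.L.sp.F k).Ω → Prop) (N : ℕ) (hN : N ≤ M) : 0 ≤ f.hh B N hN := H_nonneg _

theorem vv_zero (ht : t.Con 0) (hD : 1 ≤ D) {B : ∀ k, (f.L.sp.F k).Ω → Prop} (hB : 0 < ul (f.L.sp.pr B)) :
    f.vv B 0 (Nat.zero_le M) = 0 := by
  apply le_antisymm
  · have hu := (f.cy ht 0 (Nat.zero_le M)).re B hB
    have h1 := MSys.vol_le_M ((prs t (Nat.zero_le M)).im (lbS (f.y 0 (Nat.zero_le M))).pj B hB) D 0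
    rw [← MSys.vol_eq _ hu.1] at h1
    push_cast at h1
    exact h1
  · exact (f.hh_nonneg B 0 (Nat.zero_le M)).trans (f.hh_le ht hD hB 0 (Nat.zero_le M))

theorem hh_zero (ht : t.Con 0) (hD : 1 ≤ D) {B : ∀ k, (f.L.sp.F k).Ω → Prop} (hB : 0 < ul (f.L.sp.pr B)) :
    f.hh B 0 (Nat.zero_le M) = 0 :=
  le_antisymm ((f.hh_le ht hD hB 0 (Nat.zero_le M)).trans (f.vv_zero ht hD hB).le) (f.hh_nonneg B 0 (Nat.zero_le M))

end Fms

section lin

variable {g r : ℕ} {t : MSys S M (lin g) (Fin r)} (f : Fms t D)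

/-- the hull is filled -/
theorem Fms.vv_eq (ht : t.Con 0) (hD : 1 ≤ D) {B : ∀ k, (f.L.sp.F k).Ω → Prop} (hB : 0 < ul (f.L.sp.pr B)) (N : ℕ)
    (hN : N ≤ M) (hst : STm D N (lin g) (Fin r)) : f.vv B N hN = f.hh B N hN := by
  refine le_antisymm ?_ (f.hh_le ht hD hB N hN)
  have hu := (f.cy ht N hN).re B hB
  set u : MSys (Sp.im f.L.pj B) N (lin g) (Fin r) := (prs t hN).im f.L.pj B hB with hudef
  have hu' : u.IsCan D 0 (reS (f.y N hN) B) := hu
  have e2 : vol u.Q D (reS (f.y N hN) B) ≤ H (up1 (lb (reS (f.y N hN) B)) (u.Q.dg 1)) :=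
    hst (Sp.im f.L.pj B) u (reS (f.y N hN) B) hu'
  exact e2

/-- the mean exponent of the last coordinate -/
theorem Fms.zz_eq (ht : t.Con 0) (hD : 1 ≤ D) {B : ∀ k, (f.L.sp.F k).Ω → Prop} (hB : 0 < ul (f.L.sp.pr B)) (j : ℕ)
    (hj : j < M) (hst : STm D j (lin g) (Fin r)) : f.zz B j hj = 1 - f.vv B (j + 1) hj + f.hh B j hj.le := by
  have hu := (f.cy ht (j + 1) hj).re B hB
  set u : MSys (Sp.im f.L.pj B) (j + 1) (lin g) (Fin r) := (prs t (Nat.succ_le_of_lt hj)).im f.L.pj B hB with hudef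
  have hu' : u.IsCan D 0 (reS (f.y (j + 1) hj) B) := hu
  set P : (Sp.im f.L.pj B).VV j := (prs u (Nat.le_succ j)).Q with hPdef
  have hP : ∀ k ω a, P.v k ω a = u.Q.v k ω ((Fin.last j).succAbove a) := by
    intro k ω a
    rw [hPdef, prs_v, Fin.succAbove_last]
    rfl
  have hp := pdt_of u hD (Fin.last j) P hP
  have e1 := hp.eta_eq hD hst le_rfl one_pos hu'
  rw [eta_can hu'] at e1
  have e2 : P.dg 1 = ((prs t hj.le).Q.im f.L.pj B).dg 1 := by
    apply ZM.dg_congr_v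
    intro k ω i
    have a1 := prs_v u (Nat.le_succ j) k ω i
    have a2 : ((prs t (Nat.succ_le_of_lt hj)).Q.im f.L.pj B).v k ω (Fin.castLE (Nat.le_succ j) i) =
        (t.Q.im f.L.pj B).v k ω (Fin.castLE (Nat.succ_le_of_lt hj) (Fin.castLE (Nat.le_succ j) i)) :=
      prs_v t (Nat.succ_le_of_lt hj) k _ (Fin.castLE (Nat.le_succ j) i)
    have a3 : ((prs t hj.le).Q.im f.L.pj B).v k ω i = (t.Q.im f.L.pj B).v k ω (Fin.castLE hj.le i) :=
      prs_v t hj.le k _ i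
    exact a1.trans (a2.trans a3.symm)
  rw [e2] at e1
  exact e1.symm

/-- inner coordinates -/
theorem Fms.zz_int (ht : t.Con 0) (hD : 1 ≤ D) {B : ∀ k, (f.L.sp.F k).Ω → Prop} (hB : 0 < ul (f.L.sp.pr B)) (j : ℕ)
    (hj : j < M) (hst : STm D j (lin g) (Fin r)) (hst' : STm D (j + 1) (lin g) (Fin r)) :
    f.zz B j hj = 1 - f.hh B (j + 1) hj + f.hh B j hj.le := by
  rw [f.zz_eq ht hD hB j hj hst, f.vv_eq ht hD hB (j + 1) hj hst']

/-- sums over the first coordinates -/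
theorem Fms.zz_sum (ht : t.Con 0) (hD : 1 ≤ D) {B : ∀ k, (f.L.sp.F k).Ω → Prop} (hB : 0 < ul (f.L.sp.pr B))
    (hst : ∀ d, d < M → STm D d (lin g) (Fin r)) : ∀ N (hN : N ≤ M),
    ∑ j : Fin N, f.zz B j.val (j.isLt.trans_le hN) = N - f.vv B N hN := by
  intro N
  induction N with
  | zero =>
    intro hN
    rw [f.vv_zero ht hD hB]
    simp
  | succ n ih =>
    intro hN
    rw [Fin.sum_univ_castSucc]
    have h1 := ih (Nat.le_of_succ_le hN)
    have h2 : ∑ j : Fin n, f.zz B (Fin.castSucc j).val ((Fin.castSucc j).isLt.trans_le hN) =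
        ∑ j : Fin n, f.zz B j.val (j.isLt.trans_le (Nat.le_of_succ_le hN)) := rfl
    have h3 : f.zz B (Fin.last n).val ((Fin.last n).isLt.trans_le hN) = f.zz B n hN := rfl
    rw [h2, h1, h3, f.zz_eq ht hD hB n hN (hst n hN), f.vv_eq ht hD hB n (Nat.le_of_succ_le hN) (hst n hN)]
    push_cast
    ring

end lin

end

end Pool.Agent.Helper4.FFR
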