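import Pool.Agent.Helper48.ROW.Main
import Pool.Agent.Helper84.MT.RowJ
import Pool.Agent.Helper84.MT.Evt

/-! FLAG ROWS (1): refinements of labels, trivial labels, forms over a refinement, typical bounds from means on events,
families of rows. -/

set_option autoImplicit false

namespace Pool.Agent.Helper4.FFR

open Finset Filter Topology Matrix Pool.Agent.Helper69.RK Pool.Agent.Helper31.EC Pool.Agent.Helper31.EC.Sp
open Pool.Agent.Helper40.EL Pool.Agent.Helper89.LX Pool.Agent.Helper3.LF Pool.Agent.Helper84.MT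
open Pool.Agent.Helper7.GZ

noncomputable section

variable {S : Sp}

/-- a label which refines another label -/
structure Rfn (L l : Lab S) where
  q : ∀ k, FPj (L k).T (l k).T
  hπ : ∀ k ω, (L k).T.μ ω ≠ 0 → (l k).p.π ((q k).π ω) = (L k).p.π ω
  hV : ∀ k ω ω', (L k).T.μ ω ≠ 0 → (L k).T.μ ω' ≠ 0 → (L k).T.Z ω ω' → (L k).V ω ω' →
    (l k).V ((q k).π ω) ((q k).π ω')

/-- composition of refinements -/
def Rfn.trans {L l l₀ : Lab S} (R : Rfn L l) (R' : Rfn l l₀) : Rfn L l₀ where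
  q := fun k => (R.q k).comp (R'.q k)
  hπ := fun k ω h => (R'.hπ k _ ((R.q k).supp ω h)).trans (R.hπ k ω h)
  hV := fun k ω ω' h h' hZ hv => R'.hV k _ _ ((R.q k).supp ω h) ((R.q k).supp ω' h')
    (((R.q k).hZ ω ω' h h').1 hZ) (R.hV k ω ω' h h' hZ hv)

/-- the join refines its first member -/
def Rfn.jl (l l' : Lab S) : Rfn (l.join l') l where
  q := fun k => ((l k).am (l' k)).p1
  hπ := fun _ _ _ => rfl
  hV := fun _ _ _ _ _ _ h => h.1

/-- the join refines its second member -/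
def Rfn.jr (l l' : Lab S) : Rfn (l'.join l) l where
  q := fun k => ((l' k).am (l k)).p2
  hπ := fun k ω h => (((l' k).am (l k)).supp ω h).1.symm
  hV := fun _ _ _ _ _ _ h => h.2

/-- more knowledge on the same space -/
def Rfn.aW (l : Lab S) (W : ∀ k, Setoid (l k).T.Ω) : Rfn (l.addW W) l where
  q := fun k => idj (l k).T
  hπ := fun _ _ _ => rfl
  hV := fun _ _ _ _ _ _ h => h.1

/-! ### trivial labels -/

/-- a label without information -/
def Trv (l : Lab S) : Prop := Nul S (fun k => (l k).info)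

theorem Trv.join {l l' : Lab S} (h : Trv l) (h' : Trv l') : Trv (l.join l') := by
  refine Nul.of_le (h.add h') (Eventually.of_forall fun k => FLab.info_nonneg _) (Eventually.of_forall fun k => ?_)
  have h1 := (l k).join_leak (l' k) ⊥
  rw [FLab.leak_bot, FLab.leak_bot, FLab.leak_bot] at h1
  exact h1

theorem Trv.dm {κ : Type} {l : Lab S} (h : Trv l) (A : κ → Part S) : l.DMf A := by
  intro i
  refine Nul.of_le h (Eventually.of_forall fun k => FLab.leak_nonneg _ _) (Eventually.of_forall fun k => ?_)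
  have h1 := (l k).leak_anti (bot_le : (⊥ : FL (S.F k)) ≤ A i k)
  rw [FLab.leak_bot] at h1
  exact h1

/-- a finite family of trivial labels has a common trivial refinement -/
theorem exists_common {n : ℕ} (l : Fin n → Lab S) (h : ∀ a, Trv (l a)) :
    ∃ L : Lab S, Trv L ∧ Nonempty (∀ a, Rfn L (l a)) := by
  induction n with
  | zero =>
    refine ⟨fun k => FLab.triv (S.F k), ?_, ⟨fun a => a.elim0⟩⟩
    have h1 : (fun k => (FLab.triv (S.F k)).info) = fun _ => 0 := funext fun k => FLab.triv_info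
    show Nul S (fun k => (FLab.triv (S.F k)).info)
    rw [h1]
    exact Nul_zero S
  | succ n ih =>
    obtain ⟨L', h1, ⟨h2⟩⟩ := ih (fun a => l a.succ) (fun a => h a.succ)
    refine ⟨(l 0).join L', (h 0).join h1, ⟨fun a => ?_⟩⟩
    refine Fin.cases ?_ (fun b => ?_) a
    · exact Rfn.jl (l 0) L'
    · exact (Rfn.jr L' (l 0)).trans (h2 b)

/-! ### forms over a refinement -/

section fd

variable {ι κ : Type} [Fintype ι] [DecidableEq ι] {Φ : Gau S ι}

/-- the form over a refinement of its label -/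
def rfFD {L : Lab S} (x : ∀ k, FD (S.F k) ι) (R : Rfn L (lb x)) : ∀ k, FD (S.F k) ι := fun k =>
  ⟨L k, fun ω => (x k).g ((R.q k).π ω), fun ω => (x k).g' ((R.q k).π ω), fun ω ω' a b c d =>
    (x k).meas _ _ ((R.q k).supp ω a) ((R.q k).supp ω' b) (R.hV k ω ω' a b d c) (((R.q k).hZ ω ω' a b).1 d)⟩

theorem rf_sc {L : Lab S} (x : ∀ k, FD (S.F k) ι) (R : Rfn L (lb x)) (k : ℕ) : (rfFD x R k).sc = (x k).sc :=
  sum_push (R.q k) (fun ω => Real.logb 2 ((x k).g ω).det)

theorem rf_fm {L : Lab S} {x : ∀ k, FD (S.F k) ι} (hx : Φ.Fm x) (R : Rfn L (lb x)) : Φ.Fm (rfFD x R) := by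
  intro η hη
  filter_upwards [hx η hη] with k hk
  refine ⟨fun ω hω => hk.1 _ ((R.q k).supp ω hω), ?_, ?_⟩
  · have h1 := pb_push (R.q k) (fun ω => ¬ Φ.φ k ((x k).l.p.π ω) ((x k).g ω) ≤ 2 ^ (η * (S.F k).n))
    refine le_trans (le_trans (FSp.pb_mono _ ?_) h1.le) hk.2.1
    intro ω hω h2 h3
    apply h2
    have h4 : (lb x k).p.π ((R.q k).π ω) = (L k).p.π ω := R.hπ k ω hω
    have h5 : Φ.φ k ((lb x k).p.π ((R.q k).π ω)) ((x k).g ((R.q k).π ω)) ≤ 2 ^ (η * (S.F k).n) := h3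
    rw [h4] at h5
    exact h5
  · have h1 := pb_push (R.q k) (fun ω => ¬ Φ.φ k ((x k).l.p.π ω) ((x k).g' ω) ≤ 2 ^ (η * (S.F k).n))
    refine le_trans (le_trans (FSp.pb_mono _ ?_) h1.le) hk.2.2
    intro ω hω h2 h3
    apply h2
    have h4 : (lb x k).p.π ((R.q k).π ω) = (L k).p.π ω := R.hπ k ω hω
    have h5 : Φ.φ k ((lb x k).p.π ((R.q k).π ω)) ((x k).g' ((R.q k).π ω)) ≤ 2 ^ (η * (S.F k).n) := h3
    rw [h4] at h5
    exact h5

theorem rf_opt [Finite κ] {A : κ → Part S} {L : Lab S} {x : ∀ k, FD (S.F k) ι} (hx : Φ.Optf A x)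
    (R : Rfn L (lb x)) (hL : L.DMf A) : Φ.Optf A (rfFD x R) := by
  refine ⟨(Gau.Adf_iff).2 ⟨hL, rf_fm hx.1.fm R⟩, fun y hy => ?_⟩
  have h1 : (fun k => (rfFD x R k).sc / (S.F k).n) = fun k => (x k).sc / (S.F k).n := by
    funext k
    rw [rf_sc]
  rw [h1]
  exact hx.2 y hy

end fd

/-! ### typical bounds from means on events -/

/-- a bounded function whose mean is at least `θ` on every event is typically at least `θ` -/
theorem typ_ge (T : Sp) (f : ∀ k, (T.F k).Ω → ℝ) (C : ℝ) (hf : ∀ᶠ k in UF, ∀ ω, (T.F k).μ ω ≠ 0 → |f k ω| ≤ C)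
    (θ : ℝ) (h : ∀ B : ∀ k, (T.F k).Ω → Prop, 0 < ul (T.pr B) →
      θ ≤ ul (fun k => ∑ ω, ((T.F k).rest (B k)).μ ω * f k ω)) (e : ℝ) (he : 0 < e) :
    Typ (S := T) (fun k ω => θ - e ≤ f k ω) := by
  set B : ∀ k, (T.F k).Ω → Prop := fun k ω => ¬ θ - e ≤ f k ω with hB
  have hU : UB (T.pr B) := UB_pr B
  have h0 : ul (T.pr B) ≤ 0 := by
    by_contra hc
    have hpos : 0 < ul (T.pr B) := not_le.1 hc
    have h1 := h B hpos
    have h4 := pr_half' (S := T) hpos
    have hUf : UB (fun k => ∑ ω, ((T.F k).rest (B k)).μ ω * f k ω) := by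
      refine ⟨C, ?_⟩
      filter_upwards [hf, h4] with k hk hp
      have hpb : (T.F k).pb (B k) ≠ 0 := by
        have h5 : 0 < ul (T.pr B) / 2 := by linarith
        exact (lt_of_lt_of_le h5 hp).ne'
      refine (Finset.abs_sum_le_sum_abs _ _).trans ?_
      have h6 : ∀ ω ∈ (Finset.univ : Finset (T.F k).Ω), |((T.F k).rest (B k)).μ ω * f k ω| ≤
          ((T.F k).rest (B k)).μ ω * C := by
        intro ω _
        rw [abs_mul, abs_of_nonneg (((T.F k).rest (B k)).nn ω)]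
        by_cases hω : ((T.F k).rest (B k)).μ ω = 0
        · rw [hω, zero_mul, zero_mul]
        · exact mul_le_mul_of_nonneg_left (hk ω ((T.F k).rest_supp (B k) ω hω).1) (((T.F k).rest (B k)).nn ω)
      have h7 : ∑ ω, ((T.F k).rest (B k)).μ ω = 1 := ((T.F k).rest (B k)).ms
      have h8 : ∑ ω, ((T.F k).rest (B k)).μ ω * C = C := by rw [← Finset.sum_mul, h7, one_mul]
      exact (Finset.sum_le_sum h6).trans (le_of_eq h8)
    have h3 : ul (fun k => ∑ ω, ((T.F k).rest (B k)).μ ω * f k ω) ≤ θ - e := by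
      apply ul_le_const hUf
      filter_upwards [h4] with k hk
      have hpb : (T.F k).pb (B k) ≠ 0 := by
        have h5 : 0 < ul (T.pr B) / 2 := by linarith
        exact (lt_of_lt_of_le h5 hk).ne'
      have e1 : ∑ ω, ((T.F k).rest (B k)).μ ω = 1 := ((T.F k).rest (B k)).ms
      have e2 : θ - e = ∑ ω, ((T.F k).rest (B k)).μ ω * (θ - e) := by
        rw [← Finset.sum_mul, e1, one_mul]
      rw [e2]
      refine Finset.sum_le_sum fun ω _ => ?_
      by_cases hω : ((T.F k).rest (B k)).μ ω = 0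
      · rw [hω, zero_mul, zero_mul]
      · have h6 := ((T.F k).rest_supp (B k) ω hω).2 hpb
        exact mul_le_mul_of_nonneg_left (not_le.1 h6).le (((T.F k).rest (B k)).nn ω)
    linarith
  have h1 : 0 ≤ ul (T.pr B) := const_le_ul hU (Eventually.of_forall fun k => (T.F k).pb_nonneg _)
  have h2 := ul_tendsto hU
  rw [le_antisymm h0 h1] at h2
  exact h2

/-! ### families of rows -/

theorem Sub_fsum {n : ℕ} {K : Fin n → ℕ → ℝ} (h : ∀ j, S.Sub (K j)) : S.Sub (fun k => ∑ j, K j k) := by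
  have h2 : ∀ s : Finset (Fin n), S.Sub (fun k => ∑ j ∈ s, K j k) := by
    intro s
    induction s using Finset.induction_on with
    | empty =>
      simp only [Finset.sum_empty]
      exact S.Sub_const le_rfl
    | insert a s ha ih =>
      simp only [Finset.sum_insert ha]
      exact (h a).add ih
  exact h2 _

/-- a family of single rows -/
def Rows.pi {M n D : ℕ} {Q : S.VV M} {l : Lab S} {Λ u : ℝ} (R : Fin n → Rows Q l 1 D Λ u) : Rows Q l n D Λ u where
  p := fun k ω j => (R j).p k ω 0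
  deg := fun k ω j => (R j).deg k ω 0
  fn := by
    have h1 : ∀ᶠ k in UF, ∀ j, ∀ ω ω', (l k).T.μ ω ≠ 0 → (l k).T.μ ω' ≠ 0 → (l k).T.Z ω ω' → (l k).V ω ω' →
        (R j).p k ω = (R j).p k ω' := eventually_all.2 fun j => (R j).fn
    filter_upwards [h1] with k hk ω ω' a b c d
    funext j
    rw [hk j ω ω' a b c d]
  cf := by
    have h1 : ∀ j, ∃ K : ℕ → ℝ, S.Sub K ∧ ∀ᶠ k in UF, ∀ ω, (l k).T.μ ω ≠ 0 → ∀ i a,
      |((R j).p k ω i).coeff a| ≤ K k * 2 ^ (Λ * (S.F k).n) := fun j => (R j).cf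
    choose K hK hb using h1
    have h2 : ∀ᶠ k in UF, ∀ j, ∀ ω, (l k).T.μ ω ≠ 0 → ∀ i a,
      |((R j).p k ω i).coeff a| ≤ K j k * 2 ^ (Λ * (S.F k).n) := eventually_all.2 hb
    have h3 : ∀ᶠ k in UF, ∀ j, 0 ≤ K j k := eventually_all.2 fun j => (hK j).1
    refine ⟨fun k => ∑ j, K j k, Sub_fsum hK, ?_⟩
    filter_upwards [h2, h3] with k a b ω hω j m
    refine (a j ω hω 0 m).trans (mul_le_mul_of_nonneg_right ?_ (by positivity))
    exact Finset.single_le_sum (f := fun j => K j k) (fun i _ => b i) (Finset.mem_univ j)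
  bd := by
    have h1 : ∀ j, ∃ K : ℕ → ℝ, S.Sub K ∧ Typ (S := l.sp) (fun k (ω : (l k).T.Ω) => ∀ i,
      |MvPolynomial.eval (Q.v k ((l k).p.π ω)) ((R j).p k ω i)| ≤ K k) := fun j => (R j).bd
    choose K hK hb using h1
    have h3 : ∀ᶠ k in UF, ∀ j, 0 ≤ K j k := eventually_all.2 fun j => (hK j).1
    refine ⟨fun k => ∑ j, K j k, Sub_fsum hK, Typ.mono (S := l.sp) (Typ_all _ hb) ?_⟩
    filter_upwards [h3] with k b ω hω h j
    refine (h j 0).trans ?_
    exact Finset.single_le_sum (f := fun j => K j k) (fun i _ => b i) (Finset.mem_univ j)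
  lp := fun L hL => by
    have h1 : ∀ j, ∃ K : ℕ → ℝ, S.Sub K ∧ Typ (S := l.sp) (fun k (ω : (l k).T.Ω) =>
      ∀ y : Fin M → ℝ, (∀ i, |y i - Q.v k ((l k).p.π ω) i| ≤ L k * S.dl 1 k) → ∀ i,
        |MvPolynomial.eval y ((R j).p k ω i) - MvPolynomial.eval (Q.v k ((l k).p.π ω)) ((R j).p k ω i)| ≤
          K k * S.dl u k) := fun j => (R j).lp L hL
    choose K hK hb using h1
    have h3 : ∀ᶠ k in UF, ∀ j, 0 ≤ K j k := eventually_all.2 fun j => (hK j).1
    refine ⟨fun k => ∑ j, K j k, Sub_fsum hK, Typ.mono (S := l.sp) (Typ_all _ hb) ?_⟩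
    filter_upwards [h3] with k b ω hω h y hy j
    refine (h j y hy 0).trans (mul_le_mul_of_nonneg_right ?_ (S.dl_pos _ _).le)
    exact Finset.single_le_sum (f := fun j => K j k) (fun i _ => b i) (Finset.mem_univ j)

end

end Pool.Agent.Helper4.FFR
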