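import Pool.Agent.Helper4.FFR.Rw

/-! FLAG ROWS (8): gradients in a zoom are bounded by the gradients of the optimal form of the system. -/

set_option autoImplicit false

namespace Pool.Agent.Helper4.FFR

open Finset Filter Topology Matrix Pool.Agent.Helper69.RK Pool.Agent.Helper31.EC Pool.Agent.Helper31.EC.Sp
open Pool.Agent.Helper40.EL Pool.Agent.Helper89.LX Pool.Agent.Helper3.LF Pool.Agent.Helper84.MT
open Pool.Agent.Helper7.GZ Pool.Agent.Helper48.ROW Pool.Agent.Helper26.MZ Pool.Agent.Helper89.RAT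
open Pool.Agent.Helper95.LF (PdM)
open Pool.Agent.Helper3.ZM (aff MM afm afm_symm afm_nonneg phi_afm)

noncomputable section

variable {S : Sp} {M D : ℕ} {E : ℕ → ℕ} {ι : Type} {s : MSys S M E ι} (Z : ZM s)

/-- gradients of the form on the old space -/
theorem Jq_out (y : ∀ k, FD (Z.sp.F k) (Mon M D)) (k : ℕ) (ω : (y k).l.T.Ω) (e : Fin M → ℝ) :
    e ⬝ᵥ (Jq (Z.sp.dl 1 k) ((y k).g ω) (Z.sys.Q.v k ((y k).l.p.π ω)) *ᵥ e) ≤
      (S.dl Z.c k) ^ 2 * (e ⬝ᵥ (Jq (S.dl 1 k) (Z.zfm y k ω) (s.Q.v k ((Z.l k).p.π ((y k).l.p.π ω))) *ᵥ e)) := by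
  have hd := S.dl_pos Z.c k
  have h1 := Jq_mono (S.dl 1 k) (afm_le_one_afm (Z.oi k ((Z.l k).p.π ((y k).l.p.π ω))) (S.dl Z.c k)⁻¹ ((y k).g ω))
    (s.Q.v k ((Z.l k).p.π ((y k).l.p.π ω))) e
  have h2 : Jq (S.dl 1 k) (afm (Z.oi k ((Z.l k).p.π ((y k).l.p.π ω))) (S.dl Z.c k)⁻¹ ((y k).g ω))
      (s.Q.v k ((Z.l k).p.π ((y k).l.p.π ω))) =
      ((S.dl Z.c k)⁻¹) ^ 2 • Jq (Z.sp.dl 1 k) ((y k).g ω) (Z.sys.Q.v k ((y k).l.p.π ω)) := by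
    rw [Jq_afm, Z.dl_inv, Z.aff_fr']
    rfl
  rw [h2, Matrix.smul_mulVec, dotProduct_smul, smul_eq_mul] at h1
  have h3 := mul_le_mul_of_nonneg_left h1 (sq_nonneg (S.dl Z.c k))
  have h4 : (S.dl Z.c k) ^ 2 * (((S.dl Z.c k)⁻¹) ^ 2 *
      (e ⬝ᵥ (Jq (Z.sp.dl 1 k) ((y k).g ω) (Z.sys.Q.v k ((y k).l.p.π ω)) *ᵥ e))) =
      e ⬝ᵥ (Jq (Z.sp.dl 1 k) ((y k).g ω) (Z.sys.Q.v k ((y k).l.p.π ω)) *ᵥ e) := by
    field_simp
  rw [h4] at h3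
  exact h3

/-- scales -/
theorem dl_scale {u : ℝ} (k : ℕ) : S.dl Z.c k * (S.dl u k / S.dl 1 k) = Z.sp.dl (u / Z.e) k / Z.sp.dl 1 k := by
  have he := Z.e_pos.ne'
  have h1 : Z.sp.dl (u / Z.e) k = S.dl u k := by
    rw [Z.sp_dl', mul_div_cancel₀ _ he]
  have hd := (S.dl_pos Z.c k).ne'
  have hd1 := (S.dl_pos 1 k).ne'
  rw [h1, ← Z.dl_eq]
  field_simp

/-- BOUNDS OF THE GRADIENTS in the zoom -/
theorem grb_out [Finite ι] {x : ∀ k, FD (S.F k) (Mon M D)} (hx : (gaq s.Q D).Optf (s.cnd Z.c) x)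
    {y : ∀ k, FD (Z.sp.F k) (Mon M D)} (hy : (gaq Z.sys.Q D).Adf (Z.sys.cnd 0) y) {u : ℝ} (hu : u ≤ Z.e)
    (hg : GrB s.Q x u) : GrB Z.sys.Q y (u / Z.e) := by
  obtain ⟨K, hK, hT⟩ := hg
  have hz : (gaq s.Q D).Adf (s.cnd Z.c) (Z.out y) := by
    have h1 := Z.out_ad le_rfl hy
    rw [mul_zero, add_zero] at h1
    exact h1
  set Pf : ∀ k, (y k).l.T.Ω → ℝ → Prop := fun k ω C => ∀ e : Fin M → ℝ,
    e ⬝ᵥ ((1 + Jq (Z.sp.dl 1 k) ((y k).g ω) (Z.sys.Q.v k ((y k).l.p.π ω))) *ᵥ e) ≤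
      (1 + C * K k) * (Z.sp.dl (u / Z.e) k / Z.sp.dl 1 k) ^ 2 * (e ⬝ᵥ e) with hPf
  have key : ∀ η : ℝ, 0 < η → Tendsto (fun k => (y k).l.T.pb (fun ω => ¬ Pf k ω (2 ^ (η * (S.F k).n)))) UF (𝓝 0) := by
    intro η hη
    have h1 := Gau.Optf.dom (gaq s.Q D) hx hz η hη
    have t1 : Typ (S := (Z.cl (lb y)).sp) (fun k (ω : (y k).l.T.Ω) => Cpd ((gaq s.Q D).cp k) (Z.zfm y k ω)) :=
      Z.out_typ hy
    have h2 := typ_fpj (l := lb x) (l' := (lb x).join (Z.cl (lb y))) (Rfn.jl (lb x) (Z.cl (lb y))).q hT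
    have h3 := typ_fpj (l := Z.cl (lb y)) (l' := (lb x).join (Z.cl (lb y))) (Rfn.jr (Z.cl (lb y)) (lb x)).q t1
    have h4 : Typ (S := ((lb x).join (Z.cl (lb y))).sp) (fun k (w : ((lb x k).am (Z.cl (lb y) k)).sp.Ω) =>
        Pf k (((lb x k).am (Z.cl (lb y) k)).p2.π w) (2 ^ (η * (S.F k).n))) := by
      refine Typ.mono (S := ((lb x).join (Z.cl (lb y))).sp) (Typ.and (S := ((lb x).join (Z.cl (lb y))).sp) h1
        (Typ.and (S := ((lb x).join (Z.cl (lb y))).sp) h2 h3)) ?_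
      filter_upwards [hx.1 1 one_pos, hK.1] with k hk hK0
      intro (w : ((lb x k).am (Z.cl (lb y) k)).sp.Ω) hw hh e
      obtain ⟨g1, g2, g3⟩ := hh
      have s3 : (lb x k).p.π (((lb x k).am (Z.cl (lb y) k)).p1.π w) =
          (Z.cl (lb y) k).p.π (((lb x k).am (Z.cl (lb y) k)).p2.π w) :=
        (((lb x k).am (Z.cl (lb y) k)).supp w hw).1
      have s4 : s.Q.v k ((Z.l k).p.π ((y k).l.p.π (((lb x k).am (Z.cl (lb y) k)).p2.π w))) =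
          s.Q.v k ((lb x k).p.π (((lb x k).am (Z.cl (lb y) k)).p1.π w)) := by
        rw [s3]
        rfl
      have g4 : ∀ v, qf (Z.zfm y k (((lb x k).am (Z.cl (lb y) k)).p2.π w)) v ≤
          2 ^ (η * (S.F k).n) * qf ((x k).g (((lb x k).am (Z.cl (lb y) k)).p1.π w)) v := by
        intro v
        have g5 : (Z.out y k).g (((lb x k).am (Z.cl (lb y) k)).p2.π w) =
            Z.zfm y k (((lb x k).am (Z.cl (lb y) k)).p2.π w) := Z.out_g k _ g3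
        rw [← g5]
        exact g1 v
      have h12 : (0 : ℝ) < 2 ^ (η * (S.F k).n) := by positivity
      have h5 := Jq_out Z y k (((lb x k).am (Z.cl (lb y) k)).p2.π w) e
      rw [s4] at h5
      have h6 : e ⬝ᵥ (Jq (S.dl 1 k) (Z.zfm y k (((lb x k).am (Z.cl (lb y) k)).p2.π w))
          (s.Q.v k ((lb x k).p.π (((lb x k).am (Z.cl (lb y) k)).p1.π w))) *ᵥ e) ≤
          2 ^ (η * (S.F k).n) * (e ⬝ᵥ (Jq (S.dl 1 k) ((x k).g (((lb x k).am (Z.cl (lb y) k)).p1.π w))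
          (s.Q.v k ((lb x k).p.π (((lb x k).am (Z.cl (lb y) k)).p1.π w))) *ᵥ e)) := by
        rw [Jq_qf, Jq_qf, Finset.mul_sum]
        exact Finset.sum_le_sum fun j _ => g4 _
      have g6 : e ⬝ᵥ ((1 + Jq (S.dl 1 k) ((x k).g (((lb x k).am (Z.cl (lb y) k)).p1.π w))
        (s.Q.v k ((lb x k).p.π (((lb x k).am (Z.cl (lb y) k)).p1.π w)))) *ᵥ e) ≤
          K k * (S.dl u k / S.dl 1 k) ^ 2 * (e ⬝ᵥ e) := g2 e
      rw [Matrix.add_mulVec, Matrix.one_mulVec, dotProduct_add] at g6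
      have h10 := dot_self_nonneg e
      have h13 : e ⬝ᵥ (Jq (S.dl 1 k) ((x k).g (((lb x k).am (Z.cl (lb y) k)).p1.π w))
        (s.Q.v k ((lb x k).p.π (((lb x k).am (Z.cl (lb y) k)).p1.π w))) *ᵥ e) ≤
          K k * (S.dl u k / S.dl 1 k) ^ 2 * (e ⬝ᵥ e) := by linarith
      have h14 := mul_le_mul_of_nonneg_left (h6.trans (mul_le_mul_of_nonneg_left h13 h12.le)) (sq_nonneg (S.dl Z.c k))
      have h7 := h5.trans h14
      have h8 : (S.dl Z.c k) ^ 2 * (2 ^ (η * (S.F k).n) * (K k * (S.dl u k / S.dl 1 k) ^ 2 * (e ⬝ᵥ e))) =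
          2 ^ (η * (S.F k).n) * K k * (Z.sp.dl (u / Z.e) k / Z.sp.dl 1 k) ^ 2 * (e ⬝ᵥ e) := by
        rw [← dl_scale]
        ring
      rw [h8] at h7
      have h11 : 1 ≤ (Z.sp.dl (u / Z.e) k / Z.sp.dl 1 k) ^ 2 := by
        have h15 : u / Z.e ≤ 1 := (div_le_one Z.e_pos).mpr hu
        have h16 : 1 ≤ Z.sp.dl (u / Z.e) k / Z.sp.dl 1 k := (one_le_div (Z.sp.dl_pos _ _)).mpr (Z.sp.dl_anti h15 k)
        exact one_le_pow₀ h16
      have h17 : e ⬝ᵥ e ≤ (Z.sp.dl (u / Z.e) k / Z.sp.dl 1 k) ^ 2 * (e ⬝ᵥ e) := le_mul_of_one_le_left h10 h11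
      have h18 : e ⬝ᵥ ((1 + Jq (Z.sp.dl 1 k) ((y k).g (((lb x k).am (Z.cl (lb y) k)).p2.π w))
          (Z.sys.Q.v k ((y k).l.p.π (((lb x k).am (Z.cl (lb y) k)).p2.π w)))) *ᵥ e) = e ⬝ᵥ e +
          e ⬝ᵥ (Jq (Z.sp.dl 1 k) ((y k).g (((lb x k).am (Z.cl (lb y) k)).p2.π w))
          (Z.sys.Q.v k ((y k).l.p.π (((lb x k).am (Z.cl (lb y) k)).p2.π w))) *ᵥ e) := by
        rw [Matrix.add_mulVec, Matrix.one_mulVec, dotProduct_add]
      refine (le_of_eq h18).trans ((add_le_add h17 h7).trans (le_of_eq ?_))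
      ring
    have h5 : (fun k => (y k).l.T.pb (fun ω => ¬ Pf k ω (2 ^ (η * (S.F k).n)))) = fun k =>
        (((lb x).join (Z.cl (lb y))) k).T.pb (fun (w : ((lb x k).am (Z.cl (lb y) k)).sp.Ω) =>
          ¬ Pf k (((lb x k).am (Z.cl (lb y) k)).p2.π w) (2 ^ (η * (S.F k).n))) :=
      funext fun k => (pb_push ((lb x k).am (Z.cl (lb y) k)).p2 (fun ω => ¬ Pf k ω (2 ^ (η * (S.F k).n)))).symm
    rw [h5]
    exact h4
  obtain ⟨K2, hK2, hT2⟩ := Pool.Agent.Helper89.LX.typ_diag (S := (Z.cl (lb y)).sp) Pf (fun η hη => by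
    filter_upwards [(key η hη).eventually (gt_mem_nhds hη)] with k hk
    have hn : ((Z.cl (lb y)).sp.F k).n = (S.F k).n := sp_n (Z.cl (lb y)) k
    rw [hn]
    exact hk.le)
  refine ⟨fun k => 1 + K2 k * K k, (Z.sp.Sub_const zero_le_one).add
    ((Z.Sub_sp.mp ((sp_Sub (Z.cl (lb y))).mp hK2)).mul (Z.Sub_sp.mp hK)), ?_⟩
  exact hT2

end

end Pool.Agent.Helper4.FFR
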