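import Pool.Agent.Helper4.FFR.Tot

/-! FLAG ROWS: over a refinement of the label of a canonical form of a window there are `M` rows, the `j`-th one a
polynomial in the variables `≤ j`, whose derivatives in the directions `j` are `2 ^ (lam j n)`, up to constants, on the
whole space; on every event of the space of the label the mean of `lam j` is `1 - (H (j + 1) - H j)`, `H` the entropies of
the first coordinates over the label; the sum of the `lam j` is the exponent of the determinant of the form, pointwise. -/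

set_option autoImplicit false

namespace Pool.Agent.Helper4.FFR

open Finset Filter Topology Matrix Pool.Agent.Helper69.RK Pool.Agent.Helper31.EC Pool.Agent.Helper31.EC.Sp
open Pool.Agent.Helper40.EL Pool.Agent.Helper89.LX Pool.Agent.Helper3.LF Pool.Agent.Helper84.MT
open Pool.Agent.Helper7.GZ Pool.Agent.Helper48.ROW Pool.Agent.Helper26.MZ Pool.Agent.Helper89.RAT
open Pool.Agent.Helper14.MC (gx vx vol_eq vx_UB)

noncomputable section

/-- the identity -/
def Rfn.rfl' {S : Sp} (l : Lab S) : Rfn l l where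
  q := fun k => idj (l k).T
  hπ := fun _ _ _ => rfl
  hV := fun _ _ _ _ _ _ h => h

/-- FLAG ROWS of the window `c`, over a refinement of the label of the canonical form `x` -/
structure FR {S : Sp} {M : ℕ} {E : ℕ → ℕ} {ι : Type} [Finite ι] (s : MSys S M E ι) (D : ℕ) (c u : ℝ)
    (x : ∀ k, FD (S.F k) (Mon M D)) where
  /-- the label -/
  L : Lab S
  /-- it refines the label of the form -/
  rf : Rfn L (lb x)
  /-- it is a label `kappa_c` -/
  kap : s.IsKap c L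
  /-- the rows -/
  R : Rows s.Q L M D (D + 1) u
  /-- the `j`-th row is a polynomial in the variables `≤ j` -/
  tri : ∀ k (ω : (L k).T.Ω) (j : Fin M), ∀ a ∈ (R.p k ω j).vars, a ≤ j
  /-- the exponents -/
  lam : Fin M → ∀ k, (L k).T.Ω → ℝ
  C : ℝ
  hC : 1 ≤ C
  bd : ∀ᶠ k in UF, ∀ ω, (L k).T.μ ω ≠ 0 → ∀ j, c ≤ lam j k ω ∧ lam j k ω ≤ C
  /-- the derivatives of the rows -/
  der : ∀ᶠ k in UF, ∀ ω, (L k).T.μ ω ≠ 0 → ∀ j : Fin M,
    |MvPolynomial.eval (s.Q.v k ((L k).p.π ω)) (MvPolynomial.pderiv j (R.p k ω j))| ≤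
      2 ^ (lam j k ω * (S.F k).n) ∧
    2 ^ (lam j k ω * (S.F k).n) ≤
      C * |MvPolynomial.eval (s.Q.v k ((L k).p.π ω)) (MvPolynomial.pderiv j (R.p k ω j))|
  /-- mean exponents on events, inner coordinates -/
  int : ∀ (B : ∀ k, (L.sp.F k).Ω → Prop), 0 < ul (L.sp.pr B) → ∀ j : Fin M, j.val + 1 < M →
    mnB L.sp B (lam j) = 1 - HS s L B (j.val + 1) j.isLt + HS s L B j.val j.isLt.le
  /-- mean exponents on events, last coordinate -/
  lst : ∀ (B : ∀ k, (L.sp.F k).Ω → Prop) (hB : 0 < ul (L.sp.pr B)) (j : Fin M), j.val + 1 = M →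
    mnB L.sp B (lam j) = 1 - (s.im L.pj B hB).vol D c + HS s L B j.val j.isLt.le
  /-- mean of the sum on events -/
  sum : ∀ (B : ∀ k, (L.sp.F k).Ω → Prop) (hB : 0 < ul (L.sp.pr B)),
    ∑ j : Fin M, mnB L.sp B (lam j) = M - (s.im L.pj B hB).vol D c
  /-- the sum of the exponents is the exponent of the determinant -/
  tot : ∀ e : ℝ, 0 < e → Typ (S := L.sp) (fun k (ω : (L k).T.Ω) =>
    |∑ j : Fin M, lam j k ω - gx s.Q k ((L k).p.π ω) ((x k).g ((rf.q k).π ω))| ≤ e)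

variable {S : Sp} {M D g r : ℕ}

/-- **FLAG ROWS EXIST** -/
theorem exists_fr {s : MSys S M (lin g) (Fin r)} (hD : 1 ≤ D) (hst : ∀ d, d < M → STm D d (lin g) (Fin r)) {c : ℝ}
    (h0 : 0 ≤ c) (h1 : c < 1) {x : ∀ k, FD (S.F k) (Mon M D)} (hx : s.IsCan D c x) {u : ℝ} (hu : u ≤ 1 - c)
    (hg : GrB s.Q x u) : Nonempty (FR s D c u x) := by
  set Z : ZM s := s.mkz h0 h1 hx.2.1 with hZdef
  have hZ : s.IsKap Z.c Z.l := s.mkz_kap h0 h1 hx.2
  have hZc : Z.c = c := rfl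
  have hZe : Z.e = 1 - c := rfl
  have hue : u ≤ Z.e := hu
  have ht := Z.Con_zero hZ
  have rZ : Rfn Z.l (lb x) := Rfn.aW (lb x) _
  have htriv : Trv (fun k => FLab.triv (Z.sp.F k)) := by
    have h1 : (fun k => (FLab.triv (Z.sp.F k)).info) = fun _ => 0 := funext fun k => FLab.triv_info
    show Nul Z.sp (fun k => (FLab.triv (Z.sp.F k)).info)
    rw [h1]
    exact Nul_zero Z.sp
  obtain ⟨f₀, -⟩ := exists_fms ht D (fun k => FLab.triv (Z.sp.F k)) htriv
  -- gradients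
  have hxo : (gaq s.Q D).Optf (s.cnd Z.c) x := hx.1
  have hM := f₀.cyM ht
  have hg1 : GrB Z.sys.Q (f₀.y M le_rfl) (u / Z.e) := grb_out Z hxo hM.1.1 hue hg
  have hue1 : u / Z.e ≤ 1 := (div_le_one Z.e_pos).mpr hue
  have hg2 : ∀ j : Fin M, GrB (prs Z.sys (Nat.succ_le_of_lt j.isLt)).Q (f₀.y (j.val + 1) j.isLt) (u / Z.e) := fun j =>
    grb_pr hM.1 (fun k ω a => prs_v Z.sys (Nat.succ_le_of_lt j.isLt) k ω a) (f₀.cy ht (j.val + 1) j.isLt).1.1
      (f₀.trv.dm _) hue1 hg1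
  set f : Fms Z.sys D := f₀.ix ht with hf
  set R₀ := f₀.rws hD ht hg2 with hR₀
  have hΛ : Z.c * D + Z.e * ((D : ℝ) + 1) ≤ D + 1 := by
    rw [hZc, hZe]
    linarith
  have hu' : u ≤ Z.e * (u / Z.e) := (mul_div_cancel₀ u Z.e_pos.ne').ge
  set R := (Rows.cl Z R₀).mono le_rfl hΛ hu' with hR
  obtain ⟨C1, hC1, hder⟩ := f₀.rws_der hD ht hg2
  obtain ⟨C2, hC2, hbd⟩ := lS_bd Z f ht
  have hkap : s.IsKap c (Z.cl f.L) := kapS Z f hZ
  have hcan : s.IsCan D Z.c (Z.out (f.y M le_rfl)) := canS Z f hZ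
  refine ⟨{
    L := Z.cl f.L
    rf := (clR Z f.L).trans rZ
    kap := hkap
    R := R
    tri := fun k ω j a ha => f₀.rws_tri hD ht hg2 k ω j a (unz_vars Z k ((f₀.L k).p.π ω) _ a ha)
    lam := fun j => lS Z f j
    C := C1 + C2
    hC := by linarith
    bd := ?_
    der := ?_
    int := fun B hB j hj => lS_int Z f hD hZ hB j (hst j.val j.isLt) (hst (j.val + 1) hj)
    lst := fun B hB j hj => lS_last Z f hD hZ hB j hj (hst j.val j.isLt)
    sum := fun B hB => lS_sum Z f hD hZ hst hB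
    tot := ?_ }⟩
  · filter_upwards [hbd] with k hk ω hω j
    have h2 := hk ω hω j
    exact ⟨h2.1, h2.2.trans (by linarith)⟩
  · filter_upwards [hder] with k hk ω hω j
    have h2 := hk ω hω j
    have hd := S.dl_pos Z.c k
    have e1 : MvPolynomial.eval (s.Q.v k ((Z.cl f.L k).p.π ω)) (MvPolynomial.pderiv j (R.p k ω j)) =
        (S.dl Z.c k)⁻¹ * MvPolynomial.eval (Z.sys.Q.v k ((f₀.L k).p.π ω)) (MvPolynomial.pderiv j (R₀.p k ω j)) :=
      unz_pd Z k ((f₀.L k).p.π ω) (R₀.p k ω j) j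
    have e2 : (2 : ℝ) ^ (lS Z f j k ω * (S.F k).n) = (S.dl Z.c k)⁻¹ * 2 ^ (f₀.lz j k ω * (Z.sp.F k).n) := by
      have e3 : (S.dl Z.c k)⁻¹ = 2 ^ (Z.c * (S.F k).n) := by
        unfold Sp.dl
        rw [← Real.rpow_neg (by norm_num), neg_neg]
      rw [e3, ← Real.rpow_add (by norm_num), Z.sp_n]
      congr 1
      show (Z.c + Z.e * f₀.lz j k ω) * (S.F k).n = _
      ring
    rw [e1, abs_mul, abs_of_pos (inv_pos.mpr hd), e2]
    have h3 : 0 ≤ (S.dl Z.c k)⁻¹ := (inv_pos.mpr hd).le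
    constructor
    · exact mul_le_mul_of_nonneg_left h2.1 h3
    · have h4 : 0 ≤ |MvPolynomial.eval (Z.sys.Q.v k ((f₀.L k).p.π ω)) (MvPolynomial.pderiv j (R₀.p k ω j))| :=
        abs_nonneg _
      have h5 : 2 ^ (f₀.lz j k ω * (Z.sp.F k).n) ≤ (C1 + C2) *
          |MvPolynomial.eval (Z.sys.Q.v k ((f₀.L k).p.π ω)) (MvPolynomial.pderiv j (R₀.p k ω j))| :=
        h2.2.trans (mul_le_mul_of_nonneg_right (by linarith) h4)
      have h6 := mul_le_mul_of_nonneg_left h5 h3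
      refine h6.trans (le_of_eq ?_)
      ring
  · intro e he
    have he3 : 0 < e / 3 := by linarith
    have t1 : Typ (S := (Z.cl f.L).sp) (fun k (ω : (f.L k).T.Ω) =>
        |∑ j : Fin M, f.lz j k ω - gx Z.sys.Q k ((f.L k).p.π ω) ((f.y M le_rfl k).g ω)| ≤ e / 3) :=
      f.tot ht hD hst (e / 3) he3
    have t2 := gx_out_typ Z hD (f.cyM ht) (e / 3) he3
    have t3 := gx_opt_typ (L := Z.cl f.L) hxo hcan.1 hkap.1 ((clR Z f.L).trans rZ)
      (Rfn.rfl' (Z.cl f.L)) (e / 3) he3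
    refine Typ.mono (S := (Z.cl f.L).sp) (Typ.and (S := (Z.cl f.L).sp) t1 (Typ.and (S := (Z.cl f.L).sp) t2 t3)) ?_
    refine Eventually.of_forall fun k => ?_
    intro (ω : (f.L k).T.Ω) hω h
    obtain ⟨a1, a2, a3⟩ := h
    have b2 : |(Z.c * M + Z.e * gx Z.sys.Q k ((f.L k).p.π ω) ((f.y M le_rfl k).g ω)) -
      gx s.Q k ((Z.l k).p.π ((f.L k).p.π ω)) ((Z.out (f.y M le_rfl) k).g ω)| ≤ e / 3 := a2
    have b3 : |gx s.Q k ((Z.l k).p.π ((f.L k).p.π ω)) ((Z.out (f.y M le_rfl) k).g ω) -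
      gx s.Q k ((Z.cl f.L k).p.π ω) ((x k).g ((((clR Z f.L).trans rZ).q k).π ω))| ≤ e / 3 := a3
    have e4 : ∑ j : Fin M, lS Z f j k ω = Z.c * M + Z.e * ∑ j : Fin M, f.lz j k ω := by
      have e5 : ∀ j : Fin M, lS Z f j k ω = Z.c + Z.e * f.lz j k ω := fun j => rfl
      rw [Finset.sum_congr rfl fun j _ => e5 j, Finset.sum_add_distrib, ← Finset.mul_sum, Finset.sum_const,
        Finset.card_univ, Fintype.card_fin, nsmul_eq_mul]
      ring
    show |∑ j : Fin M, lS Z f j k ω -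
      gx s.Q k ((Z.cl f.L k).p.π ω) ((x k).g ((((clR Z f.L).trans rZ).q k).π ω))| ≤ e
    rw [e4]
    have hee := Z.e_le
    have hep := Z.e_pos
    have a1' := abs_le.1 a1
    have b2' := abs_le.1 b2
    have b3' := abs_le.1 b3
    set G := gx Z.sys.Q k ((f.L k).p.π ω) ((f.y M le_rfl k).g ω) with hG
    set X := ∑ j : Fin M, f.lz j k ω with hX
    have c1 : Z.e * (X - G) ≤ e / 3 := by
      have := mul_le_mul_of_nonneg_left a1'.2 hep.le
      nlinarith
    have c2 : -(e / 3) ≤ Z.e * (X - G) := by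
      have := mul_le_mul_of_nonneg_left a1'.1 hep.le
      nlinarith
    rw [abs_le]
    constructor <;> nlinarith [b2'.1, b2'.2, b3'.1, b3'.2]

end

end Pool.Agent.Helper4.FFR
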