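import Pool.Agent.Helper4.FFR.Evn

/-! FLAG ROWS (5): functions which are comparable and have the same mean are typically equal; exponents in a zoom and in
the system. -/

set_option autoImplicit false

namespace Pool.Agent.Helper4.FFR

open Finset Filter Topology Matrix Pool.Agent.Helper69.RK Pool.Agent.Helper31.EC Pool.Agent.Helper31.EC.Sp
open Pool.Agent.Helper40.EL Pool.Agent.Helper89.LX Pool.Agent.Helper3.LF Pool.Agent.Helper84.MT
open Pool.Agent.Helper7.GZ Pool.Agent.Helper48.ROW Pool.Agent.Helper26.MZ Pool.Agent.Helper89.RAT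
open Pool.Agent.Helper14.MC (gx vx vol_eq vx_UB)

noncomputable section

/-- one sided comparison and means, at one index -/
theorem pb_mean (F : FSp) (f g : F.Ω → ℝ) {C d e : ℝ} (hd : 0 ≤ d)
    (hf : ∀ ω, F.μ ω ≠ 0 → |f ω| ≤ C) (hg : ∀ ω, F.μ ω ≠ 0 → |g ω| ≤ C) :
    e * F.pb (fun ω => ¬ g ω - e ≤ f ω) ≤
      ∑ ω, F.μ ω * g ω - ∑ ω, F.μ ω * f ω + d + 2 * C * F.pb (fun ω => ¬ f ω ≤ g ω + d) := by
  classical
  have e1 : F.pb (fun ω => ¬ g ω - e ≤ f ω) = ∑ ω, res F.μ (fun ω => ¬ g ω - e ≤ f ω) ω := rfl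
  have e2 : F.pb (fun ω => ¬ f ω ≤ g ω + d) = ∑ ω, res F.μ (fun ω => ¬ f ω ≤ g ω + d) ω := rfl
  have e3 : d = ∑ ω, F.μ ω * d := by
    have h1 : ∑ ω, F.μ ω = 1 := F.ms
    rw [← Finset.sum_mul, h1, one_mul]
  have e4 : ∑ ω, F.μ ω * g ω - ∑ ω, F.μ ω * f ω + d + 2 * C * F.pb (fun ω => ¬ f ω ≤ g ω + d) =
      ∑ ω, (F.μ ω * g ω - F.μ ω * f ω + F.μ ω * d + 2 * C * res F.μ (fun ω => ¬ f ω ≤ g ω + d) ω) := by
    rw [Finset.sum_add_distrib, Finset.sum_add_distrib, Finset.sum_sub_distrib, ← Finset.mul_sum, ← e2, ← e3]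
  rw [e4, e1, Finset.mul_sum]
  refine Finset.sum_le_sum fun ω _ => ?_
  by_cases h0 : F.μ ω = 0
  · have h1 : ∀ P : F.Ω → Prop, res F.μ P ω = 0 := by
      intro P
      unfold res
      split_ifs
      · exact h0
      · rfl
    rw [h1, h1, h0]
    simp
  have hn := F.nn ω
  have a := abs_le.1 (hf ω h0)
  have b := abs_le.1 (hg ω h0)
  unfold res
  by_cases h1 : f ω ≤ g ω + d
  · rw [if_neg (not_not.2 h1), mul_zero, add_zero]
    by_cases h2 : g ω - e ≤ f ω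
    · rw [if_neg (not_not.2 h2), mul_zero]
      nlinarith
    · rw [if_pos h2]
      nlinarith [not_le.1 h2]
  · rw [if_pos h1]
    by_cases h2 : g ω - e ≤ f ω
    · rw [if_neg (not_not.2 h2), mul_zero]
      nlinarith [not_le.1 h1]
    · rw [if_pos h2]
      have h3 := not_le.1 h1
      have h4 := not_le.1 h2
      have h5 : 0 ≤ F.μ ω * (g ω - f ω + d + 2 * C - e) := mul_nonneg hn (by linarith)
      nlinarith

/-- COMPARABLE FUNCTIONS WITH THE SAME MEAN are typically equal -/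
theorem typ_abs (T : Sp) (f g : ∀ k, (T.F k).Ω → ℝ) (C : ℝ)
    (hf : ∀ᶠ k in UF, ∀ ω, (T.F k).μ ω ≠ 0 → |f k ω| ≤ C) (hg : ∀ᶠ k in UF, ∀ ω, (T.F k).μ ω ≠ 0 → |g k ω| ≤ C)
    (h1 : ∀ e : ℝ, 0 < e → Typ (S := T) (fun k ω => f k ω ≤ g k ω + e))
    (h2 : ul (fun k => ∑ ω, (T.F k).μ ω * g k ω) ≤ ul (fun k => ∑ ω, (T.F k).μ ω * f k ω)) (e : ℝ) (he : 0 < e) :
    Typ (S := T) (fun k ω => |f k ω - g k ω| ≤ e) := by
  have hU : ∀ q : ∀ k, (T.F k).Ω → ℝ, (∀ᶠ k in UF, ∀ ω, (T.F k).μ ω ≠ 0 → |q k ω| ≤ C) →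
      UB (fun k => ∑ ω, (T.F k).μ ω * q k ω) := by
    intro q hq
    refine ⟨C, ?_⟩
    filter_upwards [hq] with k hk
    refine (Finset.abs_sum_le_sum_abs _ _).trans ?_
    have h6 : ∀ ω ∈ (Finset.univ : Finset (T.F k).Ω), |(T.F k).μ ω * q k ω| ≤ (T.F k).μ ω * C := by
      intro ω _
      rw [abs_mul, abs_of_nonneg ((T.F k).nn ω)]
      by_cases hω : (T.F k).μ ω = 0
      · rw [hω, zero_mul, zero_mul]
      · exact mul_le_mul_of_nonneg_left (hk ω hω) ((T.F k).nn ω)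
    have h7 : ∑ ω, (T.F k).μ ω = 1 := (T.F k).ms
    refine (Finset.sum_le_sum h6).trans (le_of_eq ?_)
    rw [← Finset.sum_mul, h7, one_mul]
  have tf := ul_tendsto (hU f hf)
  have tg := ul_tendsto (hU g hg)
  have key : Typ (S := T) (fun k ω => g k ω - e ≤ f k ω) := by
    show Tendsto (fun k => (T.F k).pb (fun ω => ¬ g k ω - e ≤ f k ω)) UF (𝓝 0)
    rw [Metric.tendsto_nhds]
    intro ε hε
    set d : ℝ := e * ε / 4 with hd
    have hd0 : 0 < d := by positivity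
    have t3 : Tendsto (fun k => (T.F k).pb (fun ω => ¬ f k ω ≤ g k ω + d)) UF (𝓝 0) := h1 d hd0
    have t4 := ((tg.sub tf).add_const d).add (t3.const_mul (2 * C))
    rw [mul_zero, add_zero] at t4
    have h5 : ul (fun k => ∑ ω, (T.F k).μ ω * g k ω) - ul (fun k => ∑ ω, (T.F k).μ ω * f k ω) + d < 2 * d := by
      linarith
    filter_upwards [t4.eventually (gt_mem_nhds h5), hf, hg] with k a b c
    have h6 := pb_mean (T.F k) (f k) (g k) (e := e) hd0.le b c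
    have h7 : e * (T.F k).pb (fun ω => ¬ g k ω - e ≤ f k ω) < 2 * d := lt_of_le_of_lt h6 a
    have h8 := (T.F k).pb_nonneg (fun ω => ¬ g k ω - e ≤ f k ω)
    rw [Real.dist_eq, sub_zero, abs_of_nonneg h8]
    have h9 : e * (T.F k).pb (fun ω => ¬ g k ω - e ≤ f k ω) < e * ε := by
      refine h7.trans ?_
      rw [hd]
      have : 0 < e * ε := by positivity
      linarith
    exact lt_of_mul_lt_mul_left h9 he.le
  refine Typ.mono (S := T) (Typ.and (S := T) key (h1 e he)) ?_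
  refine Eventually.of_forall fun k ω _ h => ?_
  rw [abs_le]
  constructor <;> linarith [h.1, h.2]

/-- typical properties on an event -/
theorem typ_re (T : Sp) {P B : ∀ k, (T.F k).Ω → Prop} (h : Typ (S := T) P) (hB : 0 < ul (T.pr B)) :
    Tendsto (fun k => ((T.F k).rest (B k)).pb (fun ω => ¬ P k ω)) UF (𝓝 0) := by
  have h1 : Tendsto (fun k => (T.F k).pb (fun ω => ¬ P k ω)) UF (𝓝 0) := h
  have h2 := h1.div_const (ul (T.pr B) / 2)
  rw [zero_div] at h2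
  refine squeeze_zero' (Eventually.of_forall fun k => FSp.pb_nonneg _ _) ?_ h2
  filter_upwards [pr_half' (S := T) hB] with k hk
  exact pb_rest_le (T.F k) (B k) (fun ω => ¬ P k ω) _ (by positivity) hk

/-- bounded functions have bounded means on events -/
theorem UB_mean (T : Sp) (f : ∀ k, (T.F k).Ω → ℝ) (C : ℝ)
    (hf : ∀ᶠ k in UF, ∀ ω, (T.F k).μ ω ≠ 0 → |f k ω| ≤ C) (B : ∀ k, (T.F k).Ω → Prop) :
    UB (fun k => ∑ ω, ((T.F k).rest (B k)).μ ω * f k ω) := by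
  refine ⟨C, ?_⟩
  filter_upwards [hf] with k hk
  refine (Finset.abs_sum_le_sum_abs _ _).trans ?_
  have h6 : ∀ ω ∈ (Finset.univ : Finset (T.F k).Ω), |((T.F k).rest (B k)).μ ω * f k ω| ≤
      ((T.F k).rest (B k)).μ ω * C := by
    intro ω _
    rw [abs_mul, abs_of_nonneg (((T.F k).rest (B k)).nn ω)]
    by_cases hω : ((T.F k).rest (B k)).μ ω = 0
    · rw [hω, zero_mul, zero_mul]
    · exact mul_le_mul_of_nonneg_left (hk ω ((T.F k).rest_supp (B k) ω hω).1) (((T.F k).rest (B k)).nn ω)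
  have h7 : ∑ ω, ((T.F k).rest (B k)).μ ω = 1 := ((T.F k).rest (B k)).ms
  have h8 : ∑ ω, ((T.F k).rest (B k)).μ ω * C = C := by rw [← Finset.sum_mul, h7, one_mul]
  exact (Finset.sum_le_sum h6).trans (le_of_eq h8)

/-- means on events of comparable functions -/
theorem mean_le (T : Sp) (f g : ∀ k, (T.F k).Ω → ℝ) (C : ℝ)
    (hf : ∀ᶠ k in UF, ∀ ω, (T.F k).μ ω ≠ 0 → |f k ω| ≤ C) (hg : ∀ᶠ k in UF, ∀ ω, (T.F k).μ ω ≠ 0 → |g k ω| ≤ C)
    (h1 : ∀ e : ℝ, 0 < e → Typ (S := T) (fun k ω => f k ω ≤ g k ω + e)) {B : ∀ k, (T.F k).Ω → Prop}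
    (hB : 0 < ul (T.pr B)) : ul (fun k => ∑ ω, ((T.F k).rest (B k)).μ ω * f k ω) ≤
      ul (fun k => ∑ ω, ((T.F k).rest (B k)).μ ω * g k ω) := by
  have tf := ul_tendsto (UB_mean T f C hf B)
  have tg := ul_tendsto (UB_mean T g C hg B)
  apply le_of_forall_pos_le_add
  intro d hd
  have t3 := typ_re T (h1 d hd) hB
  have t4 := ((tg.sub tf).add_const d).add (t3.const_mul (2 * C))
  rw [mul_zero, add_zero] at t4
  have h5 : 0 ≤ ul (fun k => ∑ ω, ((T.F k).rest (B k)).μ ω * g k ω) -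
      ul (fun k => ∑ ω, ((T.F k).rest (B k)).μ ω * f k ω) + d := by
    refine ge_of_tendsto t4 ?_
    filter_upwards [hf, hg] with k b c
    have h6 := pb_mean ((T.F k).rest (B k)) (f k) (g k) (C := C) (d := d) (e := 0) hd.le
      (fun ω hω => b ω ((T.F k).rest_supp (B k) ω hω).1) (fun ω hω => c ω ((T.F k).rest_supp (B k) ω hω).1)
    rw [zero_mul] at h6
    exact h6
  linarith

/-- means on events of typically equal functions -/
theorem mean_eq (T : Sp) (f g : ∀ k, (T.F k).Ω → ℝ) (C : ℝ)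
    (hf : ∀ᶠ k in UF, ∀ ω, (T.F k).μ ω ≠ 0 → |f k ω| ≤ C) (hg : ∀ᶠ k in UF, ∀ ω, (T.F k).μ ω ≠ 0 → |g k ω| ≤ C)
    (h1 : ∀ e : ℝ, 0 < e → Typ (S := T) (fun k ω => |f k ω - g k ω| ≤ e)) {B : ∀ k, (T.F k).Ω → Prop}
    (hB : 0 < ul (T.pr B)) : ul (fun k => ∑ ω, ((T.F k).rest (B k)).μ ω * f k ω) =
      ul (fun k => ∑ ω, ((T.F k).rest (B k)).μ ω * g k ω) := by
  apply le_antisymm
  · refine mean_le T f g C hf hg (fun e he => Typ.mono (S := T) (h1 e he) ?_) hB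
    refine Eventually.of_forall fun k ω _ h => ?_
    have := (abs_le.1 h).2
    linarith
  · refine mean_le T g f C hg hf (fun e he => Typ.mono (S := T) (h1 e he) ?_) hB
    refine Eventually.of_forall fun k ω _ h => ?_
    have := (abs_le.1 h).1
    linarith

end

end Pool.Agent.Helper4.FFR
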