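import Pool.Agent.Helper4.FFR.Gen
import Pool.Agent.Helper7.GZ.Fo

/-! FLAG ROWS (2): forms of a coordinate projection of a system as forms of the system; the optimal form of the system
dominates them; gradients of forms of the projection are bounded by the gradients of the optimal form. -/

set_option autoImplicit false

namespace Pool.Agent.Helper4.FFR

open Finset Filter Topology Matrix Pool.Agent.Helper69.RK Pool.Agent.Helper31.EC Pool.Agent.Helper31.EC.Sp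
open Pool.Agent.Helper40.EL Pool.Agent.Helper89.LX Pool.Agent.Helper3.LF Pool.Agent.Helper84.MT
open Pool.Agent.Helper7.GZ Pool.Agent.Helper48.ROW Pool.Agent.Helper26.MZ
open Pool.Agent.Helper95.LF (PdM)
open Pool.Agent.Helper3.PR (cutm cutm_cpd cutFD cut_typ)
open Pool.Agent.Helper14.MC (adf_sub)


noncomputable section

section det

variable {M N D : ℕ}

/-- the coordinate projection -/
def cpj (hN : N ≤ M) : Fin N → MvPolynomial (Fin M) ℝ := fun a => MvPolynomial.X (Fin.castLE hN a)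

theorem cpj_deg (hN : N ≤ M) (i : Fin N) : (cpj hN i).totalDegree ≤ 1 := (MvPolynomial.totalDegree_X _).le

theorem cpj_eval (hN : N ≤ M) (x : Fin M → ℝ) (i : Fin N) : MvPolynomial.eval x (cpj hN i) = x (Fin.castLE hN i) :=
  MvPolynomial.eval_X _

theorem cpj_dP (hN : N ≤ M) (x e : Fin M → ℝ) : dP (cpj hN) x e = fun i => e (Fin.castLE hN i) := by
  classical
  funext i
  unfold dP cpj
  rw [eval_dir2, Finset.sum_eq_single (Fin.castLE hN i)]
  · rw [MvPolynomial.pderiv_X_self, map_one, mul_one]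
  · intro b _ hb
    rw [MvPolynomial.pderiv_X_of_ne hb.symm, map_zero, mul_zero]
  · intro h
    exact absurd (Finset.mem_univ _) h

/-- size of the pull back -/
theorem phi_cpj (hN : N ≤ M) {B : Matrix (Mon N D) (Mon N D) ℝ} (hB : PdM B) {r : ℝ} (hr : 0 < r) (x : Fin M → ℝ) :
    phi r (sbf D (cpj hN) r B) x ≤ nn M D * (nn N D * ((Cu D * Cm N D * (1 + 1) ^ D) ^ 2 *
      phi r B (fun i => x (Fin.castLE hN i)))) := by
  refine phi_sbf (cpj hN) (cpj_deg hN) (by rw [mul_one]) B hB hr zero_le_one x _ ?_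
  intro j i
  rw [cpj_eval, one_mul]
  unfold nodp
  rw [add_sub_cancel_left, abs_mul, abs_of_pos hr]
  have h1 := nod_le_one (D := D) (j (Fin.castLE hN i) : ℕ) (by have := (j (Fin.castLE hN i)).2; omega)
  rw [abs_of_nonneg h1.1]
  nlinarith [h1.2]

/-- gradients of the pull back -/
theorem Jq_cpj (hN : N ≤ M) {B : Matrix (Mon N D) (Mon N D) ℝ} (hB : ∀ x, 0 ≤ x ⬝ᵥ (B *ᵥ x)) (r : ℝ)
    (x e : Fin M → ℝ) : (fun i => e (Fin.castLE hN i)) ⬝ᵥ
      (Jq r B (fun i => x (Fin.castLE hN i)) *ᵥ fun i => e (Fin.castLE hN i)) ≤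
      e ⬝ᵥ (Jq r (sbf D (cpj hN) r B) x *ᵥ e) := by
  have h1 := Jq_sbf (cpj hN) (cpj_deg hN) (DD := D) (by rw [mul_one]) B hB r r x e
  rw [cpj_dP] at h1
  have e1 : (fun i => MvPolynomial.eval x (cpj hN i)) = fun i => x (Fin.castLE hN i) := funext fun i => cpj_eval hN x i
  rw [e1] at h1
  exact h1

end det

variable {S : Sp} {M N D : ℕ} {κ κ' : Type}

/-- the pull back of a form of the projection -/
def pm (hN : N ≤ M) (y : ∀ k, FD (S.F k) (Mon N D)) (k : ℕ) (ω : (y k).l.T.Ω) : Matrix (Mon M D) (Mon M D) ℝ :=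
  1 + sbf D (cpj hN) (S.dl 1 k) ((y k).g ω)

/-- the label with the pull back, cut off -/
def pFD (Q : S.VV M) (hN : N ≤ M) (y : ∀ k, FD (S.F k) (Mon N D)) : ∀ k, FD (S.F k) (Mon M D) :=
  cutFD (gaq Q D) (lb y) (pm hN y) fun k ω ω' a b c d => by
    unfold pm
    rw [((y k).meas ω ω' a b c d).1]

variable {Q : S.VV M} {P : S.VV N} {hN : N ≤ M} {y : ∀ k, FD (S.F k) (Mon N D)}

theorem pm_ge {B : κ → Part S} (hy : (gaq P D).Adf B y) : ∀ᶠ k in UF, ∀ ω, (lb y k).T.μ ω ≠ 0 →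
    (pm hN y k ω).IsSymm ∧ ∀ x, x ⬝ᵥ x ≤ qf (pm hN y k ω) x := by
  filter_upwards [hy 1 one_pos] with k hk ω hω
  have h1 := (hk.2.1 ω hω).1
  exact RZ.one_sbf_ge (DD := D) h1.1 h1.psd.2

theorem pm_phi {B : κ → Part S} (hP : ∀ k ω a, P.v k ω a = Q.v k ω (Fin.castLE hN a)) (hy : (gaq P D).Adf B y) :
    ∃ K : ℕ → ℝ, S.Sub K ∧ Typ (S := (lb y).sp) (fun k (ω : (y k).l.T.Ω) =>
      (gaq Q D).φ k ((y k).l.p.π ω) (pm hN y k ω) ≤ K k) := by
  obtain ⟨K, hK, hT⟩ := adf_sub hy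
  obtain ⟨K0, hK0, hone⟩ := (gaq Q D).one
  have hnn1 := nn_one M D
  have hnn2 := nn_one N D
  have hCu := Cu_one D
  have hCm := Cm_one N D
  refine ⟨fun k => K0 k + nn M D * (nn N D * (Cu D * Cm N D * (1 + 1) ^ D) ^ 2) * K k,
    hK0.add ((S.Sub_const (by positivity)).mul hK), typ_mono hT ?_⟩
  filter_upwards [hone, hy 1 one_pos] with k k1 k2 ω hω h1
  have hB := (k2.2.1 ω hω).1
  have hsup := (y k).l.p.supp ω hω
  have h2 : phi (S.dl 1 k) ((y k).g ω) (P.v k ((y k).l.p.π ω)) ≤ K k := h1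
  have e1 : P.v k ((y k).l.p.π ω) = fun i => Q.v k ((y k).l.p.π ω) (Fin.castLE hN i) := funext fun a => hP k _ a
  rw [e1] at h2
  have h3 := phi_cpj hN hB.pdM (S.dl_pos 1 k) (Q.v k ((y k).l.p.π ω))
  have h4 : phi (S.dl 1 k) (1 : Matrix (Mon M D) (Mon M D) ℝ) (Q.v k ((y k).l.p.π ω)) ≤ K0 k := k1 _ hsup
  show phi (S.dl 1 k) (pm hN y k ω) (Q.v k ((y k).l.p.π ω)) ≤ _
  have e2 : phi (S.dl 1 k) (pm hN y k ω) (Q.v k ((y k).l.p.π ω)) =
      phi (S.dl 1 k) (1 : Matrix (Mon M D) (Mon M D) ℝ) (Q.v k ((y k).l.p.π ω)) +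
        phi (S.dl 1 k) (sbf D (cpj hN) (S.dl 1 k) ((y k).g ω)) (Q.v k ((y k).l.p.π ω)) := phi_add _ _ _ _
  rw [e2]
  have h5 : nn M D * (nn N D * ((Cu D * Cm N D * (1 + 1) ^ D) ^ 2 *
      phi (S.dl 1 k) ((y k).g ω) (fun i => Q.v k ((y k).l.p.π ω) (Fin.castLE hN i)))) ≤
      nn M D * (nn N D * (Cu D * Cm N D * (1 + 1) ^ D) ^ 2) * K k := by
    have h6 : (0 : ℝ) ≤ nn M D * (nn N D * (Cu D * Cm N D * (1 + 1) ^ D) ^ 2) := by positivity
    calc nn M D * (nn N D * ((Cu D * Cm N D * (1 + 1) ^ D) ^ 2 *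
        phi (S.dl 1 k) ((y k).g ω) (fun i => Q.v k ((y k).l.p.π ω) (Fin.castLE hN i)))) =
          nn M D * (nn N D * (Cu D * Cm N D * (1 + 1) ^ D) ^ 2) *
        phi (S.dl 1 k) ((y k).g ω) (fun i => Q.v k ((y k).l.p.π ω) (Fin.castLE hN i)) := by ring
      _ ≤ _ := mul_le_mul_of_nonneg_left h2 h6
  linarith

/-- THE PULL BACK IS ADMISSIBLE -/
theorem pFD_adf [Finite κ'] {B : κ → Part S} {A : κ' → Part S} (hP : ∀ k ω a, P.v k ω a = Q.v k ω (Fin.castLE hN a))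
    (hy : (gaq P D).Adf B y) (hl : (lb y).DMf A) : (gaq Q D).Adf A (pFD Q hN y) := by
  obtain ⟨K, hK, hT⟩ := pm_phi hP hy
  exact cut_adf (lb y) hl _ _ (pm_ge hy) K hK hT

theorem pFD_typ {B : κ → Part S} (hP : ∀ k ω a, P.v k ω a = Q.v k ω (Fin.castLE hN a)) (hy : (gaq P D).Adf B y) :
    Typ (S := (lb y).sp) (fun k (ω : (y k).l.T.Ω) => (pFD Q hN y k).g ω = pm hN y k ω) := by
  obtain ⟨K, hK, hT⟩ := pm_phi hP hy
  refine typ_mono (cut_typ (Φ := gaq Q D) (lb y) (pm hN y) (pm_ge hy) K hK hT) ?_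
  exact Eventually.of_forall fun k ω _ h => cutm_pos h

/-- THE OPTIMAL FORM DOMINATES THE GRADIENTS of the forms of the projections -/
theorem pr_dom [Finite κ'] {B : κ → Part S} {A : κ' → Part S} {x : ∀ k, FD (S.F k) (Mon M D)}
    (hx : (gaq Q D).Optf A x) (hP : ∀ k ω a, P.v k ω a = Q.v k ω (Fin.castLE hN a)) (hy : (gaq P D).Adf B y)
    (hl : (lb y).DMf A) (e : ℝ) (he : 0 < e) :
    Typ (S := ((lb x).join (lb y)).sp) (fun k (w : ((lb x k).am (lb y k)).sp.Ω) => ∀ v : Fin M → ℝ,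
      (fun i => v (Fin.castLE hN i)) ⬝ᵥ (Jq (S.dl 1 k) ((y k).g (((lb x k).am (lb y k)).p2.π w))
        (P.v k ((lb y k).p.π (((lb x k).am (lb y k)).p2.π w))) *ᵥ fun i => v (Fin.castLE hN i)) ≤
      2 ^ (e * (S.F k).n) * (v ⬝ᵥ (Jq (S.dl 1 k) ((x k).g (((lb x k).am (lb y k)).p1.π w))
        (Q.v k ((lb x k).p.π (((lb x k).am (lb y k)).p1.π w))) *ᵥ v))) := by
  have h1 := Gau.Optf.dom (gaq Q D) hx (pFD_adf (A := A) hP hy hl) e he
  have h2 := typ_fpj (l := lb y) (l' := (lb x).join (lb y)) (Rfn.jr (lb y) (lb x)).q (pFD_typ hP hy)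
  refine Typ.mono (S := ((lb x).join (lb y)).sp) (Typ.and (S := ((lb x).join (lb y)).sp) h1 h2) ?_
  filter_upwards [hy 1 one_pos] with k hk
  intro (w : ((lb x k).am (lb y k)).sp.Ω) hw hh v
  obtain ⟨g1, g2⟩ := hh
  have hB := (hk.2.1 _ (((lb x k).am (lb y k)).p2.supp w hw)).1
  have s3 : (lb x k).p.π (((lb x k).am (lb y k)).p1.π w) = (lb y k).p.π (((lb x k).am (lb y k)).p2.π w) :=
    (((lb x k).am (lb y k)).supp w hw).1
  have g3 : ∀ v, qf (pm hN y k (((lb x k).am (lb y k)).p2.π w)) v ≤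
      2 ^ (e * (S.F k).n) * qf ((x k).g (((lb x k).am (lb y k)).p1.π w)) v := by
    intro v
    have g4 : (pFD Q hN y k).g (((lb x k).am (lb y k)).p2.π w) = pm hN y k (((lb x k).am (lb y k)).p2.π w) := g2
    rw [← g4]
    exact g1 v
  have e1 : P.v k ((lb y k).p.π (((lb x k).am (lb y k)).p2.π w)) =
      fun i => Q.v k ((lb x k).p.π (((lb x k).am (lb y k)).p1.π w)) (Fin.castLE hN i) := by
    rw [s3]
    exact funext fun a => hP k _ a
  rw [e1]
  refine (Jq_cpj hN hB.psd.2 (S.dl 1 k) (Q.v k ((lb x k).p.π (((lb x k).am (lb y k)).p1.π w))) v).trans ?_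
  rw [Jq_qf, Jq_qf, Finset.mul_sum]
  refine Finset.sum_le_sum fun j _ => ?_
  refine le_trans ?_ (g3 _)
  have e2 : pm hN y k (((lb x k).am (lb y k)).p2.π w) =
      1 + sbf D (cpj hN) (S.dl 1 k) ((y k).g (((lb x k).am (lb y k)).p2.π w)) := rfl
  rw [e2, qf_add, qf_one']
  have h5 := dot_self_nonneg (Wq M D (nodp D (Q.v k ((lb x k).p.π (((lb x k).am (lb y k)).p1.π w))) (S.dl 1 k) j) *ᵥ v)
  show _ ≤ _ + qf (sbf D (cpj hN) (S.dl 1 k) ((y k).g (((lb x k).am (lb y k)).p2.π w))) _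
  unfold qf
  linarith

/-- bounds of the gradients for the projections -/
theorem grb_pr [Finite κ'] {B : κ → Part S} {A : κ' → Part S} {x : ∀ k, FD (S.F k) (Mon M D)}
    (hx : (gaq Q D).Optf A x) (hP : ∀ k ω a, P.v k ω a = Q.v k ω (Fin.castLE hN a)) (hy : (gaq P D).Adf B y)
    (hl : (lb y).DMf A) {u : ℝ} (hu : u ≤ 1) (hg : GrB Q x u) : GrB P y u := by
  classical
  obtain ⟨K, hK, hT⟩ := hg
  set Pf : ∀ k, (y k).l.T.Ω → ℝ → Prop := fun k ω C => ∀ e : Fin N → ℝ,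
    e ⬝ᵥ ((1 + Jq (S.dl 1 k) ((y k).g ω) (P.v k ((y k).l.p.π ω))) *ᵥ e) ≤
      (1 + C * K k) * (S.dl u k / S.dl 1 k) ^ 2 * (e ⬝ᵥ e) with hPf
  have key : ∀ η : ℝ, 0 < η → Tendsto (fun k => (y k).l.T.pb (fun ω => ¬ Pf k ω (2 ^ (η * (S.F k).n)))) UF (𝓝 0) := by
    intro η hη
    have h1 := pr_dom hx hP hy hl η hη
    have h2 := typ_fpj (l := lb x) (l' := (lb x).join (lb y)) (Rfn.jl (lb x) (lb y)).q hT
    have h3 : Typ (S := ((lb x).join (lb y)).sp) (fun k (w : ((lb x k).am (lb y k)).sp.Ω) =>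
        Pf k (((lb x k).am (lb y k)).p2.π w) (2 ^ (η * (S.F k).n))) := by
      refine Typ.mono (S := ((lb x).join (lb y)).sp) (Typ.and (S := ((lb x).join (lb y)).sp) h1 h2) ?_
      filter_upwards [hx.1 1 one_pos, hK.1] with k hk hK0
      intro (w : ((lb x k).am (lb y k)).sp.Ω) hw hh e
      obtain ⟨g1, g2⟩ := hh
      -- extension by zero
      set v : Fin M → ℝ := fun i => if h : i.val < N then e ⟨i.val, h⟩ else 0 with hv
      have hve : (fun i => v (Fin.castLE hN i)) = e := by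
        funext i
        rw [hv]
        dsimp only
        have : (Fin.castLE hN i).val < N := i.2
        rw [dif_pos this]
        rfl
      have hvv : v ⬝ᵥ v = e ⬝ᵥ e := by
        have h6 : ∑ i : Fin M, v i * v i = ∑ i : Fin N, v (Fin.castLE hN i) * v (Fin.castLE hN i) := by
          rw [← Finset.sum_image (s := Finset.univ) (g := Fin.castLE hN) (f := fun i => v i * v i)
            (fun a _ b _ h => Fin.castLE_injective hN h)]
          symm
          apply Finset.sum_subset (Finset.subset_univ _)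
          intro i _ hi
          have h7 : ¬ i.val < N := by
            intro h8
            apply hi
            rw [Finset.mem_image]
            exact ⟨⟨i.val, h8⟩, Finset.mem_univ _, Fin.ext rfl⟩
          have h8 : v i = 0 := by
            rw [hv]
            exact dif_neg h7
          rw [h8, mul_zero]
        have h9 : ∀ i, v (Fin.castLE hN i) = e i := fun i => congrFun hve i
        have h5 : v ⬝ᵥ v = ∑ i : Fin M, v i * v i := rfl
        rw [h5, h6]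
        simp only [h9]
        rfl
      have g3 := g1 v
      rw [hve] at g3
      have g4 : v ⬝ᵥ ((1 + Jq (S.dl 1 k) ((x k).g (((lb x k).am (lb y k)).p1.π w))
        (Q.v k ((lb x k).p.π (((lb x k).am (lb y k)).p1.π w)))) *ᵥ v) ≤
          K k * (S.dl u k / S.dl 1 k) ^ 2 * (v ⬝ᵥ v) := g2 v
      rw [Matrix.add_mulVec, Matrix.one_mulVec, dotProduct_add, hvv] at g4
      have h10 := dot_self_nonneg e
      have h11 : 1 ≤ (S.dl u k / S.dl 1 k) ^ 2 := by
        have h5 : 1 ≤ S.dl u k / S.dl 1 k := (one_le_div (S.dl_pos _ _)).mpr (S.dl_anti hu k)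
        exact one_le_pow₀ h5
      have h12 : (0 : ℝ) < 2 ^ (η * (S.F k).n) := by positivity
      have h13 : v ⬝ᵥ (Jq (S.dl 1 k) ((x k).g (((lb x k).am (lb y k)).p1.π w))
        (Q.v k ((lb x k).p.π (((lb x k).am (lb y k)).p1.π w))) *ᵥ v) ≤
          K k * (S.dl u k / S.dl 1 k) ^ 2 * (e ⬝ᵥ e) := by linarith
      have h14 := mul_le_mul_of_nonneg_left h13 h12.le
      have h15 : e ⬝ᵥ ((1 + Jq (S.dl 1 k) ((y k).g (((lb x k).am (lb y k)).p2.π w))
          (P.v k ((lb y k).p.π (((lb x k).am (lb y k)).p2.π w)))) *ᵥ e) = e ⬝ᵥ e +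
          e ⬝ᵥ (Jq (S.dl 1 k) ((y k).g (((lb x k).am (lb y k)).p2.π w))
          (P.v k ((lb y k).p.π (((lb x k).am (lb y k)).p2.π w))) *ᵥ e) := by
        rw [Matrix.add_mulVec, Matrix.one_mulVec, dotProduct_add]
      refine (le_of_eq h15).trans ?_
      have h16 : 0 ≤ (S.dl u k / S.dl 1 k) ^ 2 * (e ⬝ᵥ e) := by positivity
      have h17 : e ⬝ᵥ e ≤ (S.dl u k / S.dl 1 k) ^ 2 * (e ⬝ᵥ e) := le_mul_of_one_le_left h10 h11
      calc e ⬝ᵥ e + e ⬝ᵥ (Jq (S.dl 1 k) ((y k).g (((lb x k).am (lb y k)).p2.π w))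
          (P.v k ((lb y k).p.π (((lb x k).am (lb y k)).p2.π w))) *ᵥ e) ≤
          (S.dl u k / S.dl 1 k) ^ 2 * (e ⬝ᵥ e) +
            2 ^ (η * (S.F k).n) * (K k * (S.dl u k / S.dl 1 k) ^ 2 * (e ⬝ᵥ e)) :=
            add_le_add h17 (g3.trans h14)
        _ = _ := by ring
    have h4 : (fun k => (y k).l.T.pb (fun ω => ¬ Pf k ω (2 ^ (η * (S.F k).n)))) = fun k =>
        (((lb x).join (lb y)) k).T.pb (fun (w : ((lb x k).am (lb y k)).sp.Ω) =>
          ¬ Pf k (((lb x k).am (lb y k)).p2.π w) (2 ^ (η * (S.F k).n))) :=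
      funext fun k => (pb_push ((lb x k).am (lb y k)).p2 (fun ω => ¬ Pf k ω (2 ^ (η * (S.F k).n)))).symm
    rw [h4]
    exact h3
  obtain ⟨K2, hK2, hT2⟩ := Pool.Agent.Helper89.LX.typ_diag (S := (lb y).sp) Pf (fun η hη => by
    filter_upwards [(key η hη).eventually (gt_mem_nhds hη)] with k hk
    have hn : ((lb y).sp.F k).n = (S.F k).n := sp_n (lb y) k
    rw [hn]
    exact hk.le)
  refine ⟨fun k => 1 + K2 k * K k, (S.Sub_const zero_le_one).add (((sp_Sub (lb y)).mp hK2).mul hK), ?_⟩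
  exact hT2

end

end Pool.Agent.Helper4.FFR
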