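import Pool.Agent.Helper4.FFR.Zs

/-! FLAG ROWS (7): the rows in a connected system: one label, `M` polynomials, the `j`-th one in the variables `≤ j`, with
the derivative `2 ^ (xz n)` in the direction `j`. -/

set_option autoImplicit false

namespace Pool.Agent.Helper4.FFR

open Finset Filter Topology Matrix Pool.Agent.Helper69.RK Pool.Agent.Helper31.EC Pool.Agent.Helper31.EC.Sp
open Pool.Agent.Helper40.EL Pool.Agent.Helper89.LX Pool.Agent.Helper3.LF Pool.Agent.Helper84.MT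
open Pool.Agent.Helper7.GZ Pool.Agent.Helper48.ROW Pool.Agent.Helper26.MZ Pool.Agent.Helper89.RAT
open Pool.Agent.Helper14.MC (gx vx vol_eq vx_UB)

noncomputable section

theorem aux_sq {a J C n d : ℝ} (hC : 1 ≤ C) (ha : 0 ≤ a) (haJ : a ^ 2 = J) (hn : n ≤ C) (h1 : J ≤ n * d ^ 2)
    (h2 : d ^ 2 ≤ J) : |d| ≤ a ∧ a ≤ C * |d| := by
  constructor
  · apply abs_le_of_sq_le_sq _ ha
    rw [haJ]
    exact h2
  · have h3 : 0 ≤ d ^ 2 := sq_nonneg d
    have h8 : J ≤ C * d ^ 2 := h1.trans (mul_le_mul_of_nonneg_right hn h3)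
    have h9 : C * d ^ 2 ≤ C ^ 2 * d ^ 2 := by
      apply mul_le_mul_of_nonneg_right _ h3
      nlinarith
    have h10 : a ^ 2 ≤ (C * |d|) ^ 2 := by
      rw [haJ, mul_pow, sq_abs]
      exact h8.trans h9
    have h11 : 0 ≤ C * |d| := mul_nonneg (by linarith) (abs_nonneg d)
    exact (le_abs_self a).trans (abs_le_of_sq_le_sq h10 h11)

variable {S : Sp} {M D : ℕ} {E : ℕ → ℕ} {ι : Type} [Finite ι] {t : MSys S M E ι}

namespace Fms

variable (f : Fms t D)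

/-- the indices of the rows -/
abbrev Bt (M D : ℕ) : Type := ∀ j : Fin M, Fin 1 → RIx (j.val + 1) D

/-- the indices of the best rows in the last directions -/
def bi (k : ℕ) (ω : (f.L k).T.Ω) : Bt M D := fun j =>
  bnum1 (prs t (Nat.succ_le_of_lt j.isLt)).Q (f.y (j.val + 1) j.isLt) (Fin.last j.val) k ω

/-- the label with the indices -/
def ix (ht : t.Con 0) : Fms t D where
  L := ixl f.L f.bi
  trv := ht _ (ixl_DMf (f.trv.dm (t.cnd 0)) f.bi)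
  x := f.x
  can := f.can
  R := fun N hN => (Rfn.aW f.L _).trans (f.R N hN)

theorem ix_g (ht : t.Con 0) (N : ℕ) (hN : N ≤ M) (k : ℕ) (ω : (f.L k).T.Ω) :
    ((f.ix ht).y N hN k).g ω = (f.y N hN k).g ω := rfl

/-- the exponents of the last directions -/
def lz (j : Fin M) (k : ℕ) (ω : (f.L k).T.Ω) : ℝ :=
  xz (prs t (Nat.succ_le_of_lt j.isLt)).Q (Fin.last j.val) k ((f.L k).p.π ω) ((f.y (j.val + 1) j.isLt k).g ω)

theorem ix_lz (ht : t.Con 0) (j : Fin M) (k : ℕ) (ω : (f.L k).T.Ω) : (f.ix ht).lz j k ω = f.lz j k ω := rfl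

/-- one row -/
def rw1 (hD : 1 ≤ D) (ht : t.Con 0) {u : ℝ} (j : Fin M)
    (hu : GrB (prs t (Nat.succ_le_of_lt j.isLt)).Q (f.y (j.val + 1) j.isLt) u) :
    Rows t.Q (f.ix ht).L 1 D (D + 1) u :=
  ((rowsOf hD (f.cy ht (j.val + 1) j.isLt).1.1.fm
    (bnum1 (prs t (Nat.succ_le_of_lt j.isLt)).Q (f.y (j.val + 1) j.isLt) (Fin.last j.val)) hu).ren
      (Fin.castLE (Nat.succ_le_of_lt j.isLt)) (Fin.castLE_injective _)
      (fun k ω a => prs_v t (Nat.succ_le_of_lt j.isLt) k ω a)).pull (fun k => idj (f.L k).T)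
    (Eventually.of_forall fun _ _ _ => rfl)
    (Eventually.of_forall fun _ _ _ _ _ _ h => ⟨h.1, congrFun (show f.bi _ _ = f.bi _ _ from h.2) j⟩)

/-- the rows -/
def rws (hD : 1 ≤ D) (ht : t.Con 0) {u : ℝ}
    (hu : ∀ j : Fin M, GrB (prs t (Nat.succ_le_of_lt j.isLt)).Q (f.y (j.val + 1) j.isLt) u) :
    Rows t.Q (f.ix ht).L M D (D + 1) u := Rows.pi fun j => f.rw1 hD ht j (hu j)

/-- the polynomial before it is read in all variables -/
def pj (j : Fin M) (k : ℕ) (ω : (f.L k).T.Ω) : MvPolynomial (Fin (j.val + 1)) ℝ :=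
  rfam (S.dl 1 k) ((f.y (j.val + 1) j.isLt k).g ω)
    (bnum1 (prs t (Nat.succ_le_of_lt j.isLt)).Q (f.y (j.val + 1) j.isLt) (Fin.last j.val) k ω 0)

variable {f} in
theorem rws_p (hD : 1 ≤ D) (ht : t.Con 0) {u : ℝ}
    (hu : ∀ j : Fin M, GrB (prs t (Nat.succ_le_of_lt j.isLt)).Q (f.y (j.val + 1) j.isLt) u) (k : ℕ)
    (ω : (f.L k).T.Ω) (j : Fin M) : (f.rws hD ht hu).p k ω j =
      MvPolynomial.rename (Fin.castLE (Nat.succ_le_of_lt j.isLt)) (f.pj j k ω) := rfl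

/-- the rows are triangular -/
theorem rws_tri (hD : 1 ≤ D) (ht : t.Con 0) {u : ℝ}
    (hu : ∀ j : Fin M, GrB (prs t (Nat.succ_le_of_lt j.isLt)).Q (f.y (j.val + 1) j.isLt) u) (k : ℕ)
    (ω : (f.L k).T.Ω) (j : Fin M) : ∀ a ∈ ((f.rws hD ht hu).p k ω j).vars, a ≤ j := by
  classical
  intro a ha
  rw [rws_p] at ha
  have h1 := MvPolynomial.vars_rename _ _ ha
  rw [Finset.mem_image] at h1
  obtain ⟨b, -, rfl⟩ := h1
  rw [Fin.le_def]
  exact Nat.le_of_lt_succ b.2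

/-- the derivative in the last direction -/
theorem rws_pd (hD : 1 ≤ D) (ht : t.Con 0) {u : ℝ}
    (hu : ∀ j : Fin M, GrB (prs t (Nat.succ_le_of_lt j.isLt)).Q (f.y (j.val + 1) j.isLt) u) (k : ℕ)
    (ω : (f.L k).T.Ω) (j : Fin M) :
    MvPolynomial.eval (t.Q.v k ((f.L k).p.π ω)) (MvPolynomial.pderiv j ((f.rws hD ht hu).p k ω j)) =
      MvPolynomial.eval ((prs t (Nat.succ_le_of_lt j.isLt)).Q.v k ((f.L k).p.π ω))
        (MvPolynomial.pderiv (Fin.last j.val) (f.pj j k ω)) := by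
  have e1 : j = Fin.castLE (Nat.succ_le_of_lt j.isLt) (Fin.last j.val) := Fin.ext rfl
  have e2 : MvPolynomial.pderiv j ((f.rws hD ht hu).p k ω j) =
      MvPolynomial.rename (Fin.castLE (Nat.succ_le_of_lt j.isLt)) (MvPolynomial.pderiv (Fin.last j.val) (f.pj j k ω)) := by
    rw [rws_p, ← MvPolynomial.pderiv_rename (Fin.castLE_injective (Nat.succ_le_of_lt j.isLt)) (Fin.last j.val)
      (f.pj j k ω)]
    exact congrArg (fun i => MvPolynomial.pderiv i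
      (MvPolynomial.rename (Fin.castLE (Nat.succ_le_of_lt j.isLt)) (f.pj j k ω))) e1
  rw [e2, MvPolynomial.eval_rename]
  have e3 : (t.Q.v k ((f.L k).p.π ω)) ∘ (Fin.castLE (Nat.succ_le_of_lt j.isLt)) =
      (prs t (Nat.succ_le_of_lt j.isLt)).Q.v k ((f.L k).p.π ω) :=
    funext fun a => (prs_v t (Nat.succ_le_of_lt j.isLt) k ((f.L k).p.π ω) a).symm
  rw [e3]

/-- THE DERIVATIVES of the rows -/
theorem rws_der (hD : 1 ≤ D) (ht : t.Con 0) {u : ℝ}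
    (hu : ∀ j : Fin M, GrB (prs t (Nat.succ_le_of_lt j.isLt)).Q (f.y (j.val + 1) j.isLt) u) :
    ∃ C : ℝ, 1 ≤ C ∧ ∀ᶠ k in UF, ∀ ω : (f.L k).T.Ω, (f.L k).T.μ ω ≠ 0 → ∀ j : Fin M,
      |MvPolynomial.eval (t.Q.v k ((f.L k).p.π ω)) (MvPolynomial.pderiv j ((f.rws hD ht hu).p k ω j))| ≤
        2 ^ (f.lz j k ω * (S.F k).n) ∧
      2 ^ (f.lz j k ω * (S.F k).n) ≤ C *
        |MvPolynomial.eval (t.Q.v k ((f.L k).p.π ω)) (MvPolynomial.pderiv j ((f.rws hD ht hu).p k ω j))| := by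
  have h1 : ∀ᶠ k in UF, ∀ j : Fin M, ∀ ω : (f.L k).T.Ω, (f.L k).T.μ ω ≠ 0 →
      (1 + Jq (S.dl 1 k) ((f.y (j.val + 1) j.isLt k).g ω)
        ((prs t (Nat.succ_le_of_lt j.isLt)).Q.v k ((f.L k).p.π ω))) (Fin.last j.val) (Fin.last j.val) ≤
        nrw (j.val + 1) D * (MvPolynomial.eval ((prs t (Nat.succ_le_of_lt j.isLt)).Q.v k ((f.L k).p.π ω))
          (MvPolynomial.pderiv (Fin.last j.val) (f.pj j k ω))) ^ 2 ∧
      (MvPolynomial.eval ((prs t (Nat.succ_le_of_lt j.isLt)).Q.v k ((f.L k).p.π ω))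
          (MvPolynomial.pderiv (Fin.last j.val) (f.pj j k ω))) ^ 2 ≤
        (1 + Jq (S.dl 1 k) ((f.y (j.val + 1) j.isLt k).g ω)
        ((prs t (Nat.succ_le_of_lt j.isLt)).Q.v k ((f.L k).p.π ω))) (Fin.last j.val) (Fin.last j.val) :=
    eventually_all.2 fun j => rows_row hD (f.cy ht (j.val + 1) j.isLt).1.1.fm (hu j) (Fin.last j.val)
  have h2 : ∀ᶠ k in UF, ∀ j : Fin M, ∀ ω : (f.L k).T.Ω, (f.L k).T.μ ω ≠ 0 →
      Cpd ((gaq (prs t (Nat.succ_le_of_lt j.isLt)).Q D).cp k) ((f.y (j.val + 1) j.isLt k).g ω) :=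
    eventually_all.2 fun j => ((f.cy ht (j.val + 1) j.isLt).1.1 1 one_pos).mono fun k hk ω hω => (hk.2.1 ω hω).1
  refine ⟨1 + ∑ j : Fin M, (nrw (j.val + 1) D : ℝ), ?_, ?_⟩
  · have : (0 : ℝ) ≤ ∑ j : Fin M, (nrw (j.val + 1) D : ℝ) := Finset.sum_nonneg fun j _ => Nat.cast_nonneg _
    linarith
  filter_upwards [h1, h2] with k a b ω hω j
  have hn := (S.F k).pos
  obtain ⟨a1, a2⟩ := a j ω hω
  have hB := b j ω hω
  rw [rws_pd]
  set d : ℝ := MvPolynomial.eval ((prs t (Nat.succ_le_of_lt j.isLt)).Q.v k ((f.L k).p.π ω))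
    (MvPolynomial.pderiv (Fin.last j.val) (f.pj j k ω)) with hd
  set J : ℝ := (1 + Jq (S.dl 1 k) ((f.y (j.val + 1) j.isLt k).g ω)
    ((prs t (Nat.succ_le_of_lt j.isLt)).Q.v k ((f.L k).p.π ω))) (Fin.last j.val) (Fin.last j.val) with hJ
  have hJz : J = Jz (prs t (Nat.succ_le_of_lt j.isLt)).Q (Fin.last j.val) k ((f.L k).p.π ω)
      ((f.y (j.val + 1) j.isLt k).g ω) := by
    rw [hJ, Matrix.add_apply, Matrix.one_apply_eq]
    rfl
  have hJ1 : 1 ≤ J := by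
    have h3 := one_le_Jz (prs t (Nat.succ_le_of_lt j.isLt)).Q (Fin.last j.val) k ((f.L k).p.π ω)
      (A := (f.y (j.val + 1) j.isLt k).g ω) (fun v => hB.psd.2 v)
    rw [hJz]
    exact h3
  have hJe : (2 ^ (f.lz j k ω * (S.F k).n)) ^ 2 = J := by
    have h4 : f.lz j k ω = Real.logb 2 J / (2 * (S.F k).n) := by
      rw [hJz]
      rfl
    rw [h4, ← Real.rpow_natCast, ← Real.rpow_mul (by norm_num)]
    have h5 : Real.logb 2 J / (2 * (S.F k).n) * (S.F k).n * ((2 : ℕ) : ℝ) = Real.logb 2 J := by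
      push_cast
      field_simp
    rw [h5, Real.rpow_logb (by norm_num) (by norm_num) (by linarith)]
  have hp : (0 : ℝ) < 2 ^ (f.lz j k ω * (S.F k).n) := by positivity
  have hC1 : 0 ≤ ∑ j : Fin M, (nrw (j.val + 1) D : ℝ) := Finset.sum_nonneg fun j _ => Nat.cast_nonneg _
  have hC : (nrw (j.val + 1) D : ℝ) ≤ 1 + ∑ j : Fin M, (nrw (j.val + 1) D : ℝ) := by
    have h7 : (nrw (j.val + 1) D : ℝ) ≤ ∑ j : Fin M, (nrw (j.val + 1) D : ℝ) :=
      Finset.single_le_sum (f := fun j : Fin M => (nrw (j.val + 1) D : ℝ))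
        (fun i _ => Nat.cast_nonneg _) (Finset.mem_univ j)
    linarith
  exact aux_sq (by linarith) hp.le hJe hC a1 a2

end Fms

end

end Pool.Agent.Helper4.FFR
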