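import Pool.Agent.Helper4.FFR.Gi

/-! FLAG ROWS (9): the rows of a connected zoom as rows of the system, means on events. -/

set_option autoImplicit false

namespace Pool.Agent.Helper4.FFR

open Finset Filter Topology Matrix Pool.Agent.Helper69.RK Pool.Agent.Helper31.EC Pool.Agent.Helper31.EC.Sp
open Pool.Agent.Helper40.EL Pool.Agent.Helper89.LX Pool.Agent.Helper3.LF Pool.Agent.Helper84.MT
open Pool.Agent.Helper7.GZ Pool.Agent.Helper48.ROW Pool.Agent.Helper26.MZ Pool.Agent.Helper89.RAT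
open Pool.Agent.Helper14.MC (gx vx vol_eq vx_UB)

noncomputable section

/-- the mean of a function on an event -/
def mnB (T : Sp) (B : ∀ k, (T.F k).Ω → Prop) (q : ∀ k, (T.F k).Ω → ℝ) : ℝ :=
  ul (fun k => ∑ ω, ((T.F k).rest (B k)).μ ω * q k ω)

variable {S : Sp} {M D : ℕ} {E : ℕ → ℕ} {ι : Type} {s : MSys S M E ι} (Z : ZM s)

theorem unz_vars (k : ℕ) (ω : (Z.l k).T.Ω) (q : MvPolynomial (Fin M) ℝ) (i : Fin M) (h : i ∈ (unz Z k ω q).vars) :
    i ∈ q.vars := by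
  classical
  have h1 : (unz Z k ω q).vars ⊆ q.vars.biUnion fun a => (MvPolynomial.C (S.dl Z.c k)⁻¹ * MvPolynomial.X (id a) +
      MvPolynomial.C (cor Z k ω a) : MvPolynomial (Fin M) ℝ).vars := by
    have e1 : unz Z k ω q = MvPolynomial.bind₁ (fun a => MvPolynomial.C (S.dl Z.c k)⁻¹ * MvPolynomial.X (id a) +
      MvPolynomial.C (cor Z k ω a)) q := rfl
    rw [e1]
    exact MvPolynomial.vars_bind₁ _ _
  obtain ⟨a, ha1, ha⟩ := Finset.mem_biUnion.1 (h1 h)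
  have h2 := MvPolynomial.vars_add_subset _ _ ha
  rw [MvPolynomial.vars_C, Finset.union_empty] at h2
  have h3 := MvPolynomial.vars_mul _ _ h2
  rw [MvPolynomial.vars_C, Finset.empty_union, MvPolynomial.vars_X, Finset.mem_singleton] at h3
  rw [h3]
  exact ha1

/-- the label of the zoom is refined by the composed labels -/
def clR (L : Lab Z.sp) : Rfn (Z.cl L) Z.l where
  q := fun k => (Z.l k).cq Z.e Z.e_pos (L k)
  hπ := fun _ _ _ => rfl
  hV := fun _ _ _ _ _ _ h => h.1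

section mean

variable [Finite ι] (f : Fms Z.sys D)

/-- the exponents in the system -/
def lS (j : Fin M) (k : ℕ) (ω : (f.L k).T.Ω) : ℝ := Z.c + Z.e * f.lz j k ω

theorem zz_mean (ht : Z.sys.Con 0) {B : ∀ k, (f.L.sp.F k).Ω → Prop} (hB : 0 < ul (f.L.sp.pr B)) (j : Fin M) :
    mnB (Z.cl f.L).sp B (lS Z f j) = Z.c + Z.e * f.zz B j.val j.isLt := by
  have hu := (f.cy ht (j.val + 1) j.isLt).re B hB
  have hU := zv_UB (Fin.last j.val) hu.1.1
  refine ul_eq (Tendsto.congr (fun k => ?_) (((ul_tendsto hU).const_mul Z.e).const_add Z.c))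
  have h2 : ∑ ω, ((f.L k).T.rest (B k)).μ ω = 1 := ((f.L k).T.rest (B k)).ms
  have h4 : Z.c = ∑ ω, ((f.L k).T.rest (B k)).μ ω * Z.c := by rw [← Finset.sum_mul, h2, one_mul]
  have h3 : ∑ ω, ((f.L k).T.rest (B k)).μ ω * lS Z f j k ω =
      Z.c + Z.e * ∑ ω, ((f.L k).T.rest (B k)).μ ω * f.lz j k ω := by
    conv_rhs => rw [h4]
    rw [Finset.mul_sum, ← Finset.sum_add_distrib]
    refine Finset.sum_congr rfl fun ω _ => ?_
    unfold lS
    ring
  exact h3.symm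

/-- the exponents are bounded -/
theorem lS_bd (ht : Z.sys.Con 0) : ∃ C : ℝ, 0 ≤ C ∧ ∀ᶠ k in UF, ∀ ω : (f.L k).T.Ω, (f.L k).T.μ ω ≠ 0 → ∀ j : Fin M,
    Z.c ≤ lS Z f j k ω ∧ lS Z f j k ω ≤ C := by
  have h1 : ∀ j : Fin M, ∃ C : ℝ, 0 ≤ C ∧ ∀ᶠ k in UF, ∀ ω : (f.L k).T.Ω, (f.L k).T.μ ω ≠ 0 →
      0 ≤ f.lz j k ω ∧ f.lz j k ω ≤ C := fun j =>
    xz_bd (Fin.last j.val) (f.cy ht (j.val + 1) j.isLt).1.1
  choose C hC hb using h1
  have he := Z.e_pos
  have hc := Z.h0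
  refine ⟨Z.c + Z.e * ∑ j, C j, add_nonneg hc (mul_nonneg he.le (Finset.sum_nonneg fun j _ => hC j)), ?_⟩
  filter_upwards [eventually_all.2 hb] with k hk ω hω j
  obtain ⟨a, b⟩ := hk j ω hω
  have h2 : C j ≤ ∑ j, C j := Finset.single_le_sum (f := C) (fun i _ => hC i) (Finset.mem_univ j)
  unfold lS
  constructor
  · have := mul_nonneg he.le a
    linarith
  · have := mul_le_mul_of_nonneg_left (b.trans h2) he.le
    linarith

/-- volumes of the full point on events -/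
theorem vv_vol (hD : 1 ≤ D) (hZ : s.IsKap Z.c Z.l) {B : ∀ k, ((Z.cl f.L).sp.F k).Ω → Prop}
    (hB : 0 < ul ((Z.cl f.L).sp.pr B)) :
    Z.e * f.vv B M le_rfl = (s.im (Z.cl f.L).pj B hB).vol D Z.c := by
  have ht := Z.Con_zero hZ
  have hy := f.cyM ht
  have hx := canS Z f hZ
  obtain ⟨C, hC, hbd⟩ := gx_bd hy.1.1
  obtain ⟨C', hC', hbd'⟩ := gx_bd hx.1.1
  have he0 := Z.e_pos
  have hc0 := Z.h0
  have hM : (0 : ℝ) ≤ M := Nat.cast_nonneg M
  have hxB := hx.re B hB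
  have h1 : (s.im (Z.cl f.L).pj B hB).vol D Z.c =
      vol (s.Q.im (Z.cl f.L).pj B) D (reS (Z.out (f.y M le_rfl)) B) := (MSys.vol_eq _ hxB.1).symm
  have hB' : 0 < ul (f.L.sp.pr B) := hB
  have hyB := hy.re B hB'
  have h2 : f.vv B M le_rfl = vol (Z.sys.Q.im f.L.pj B) D (reS (f.y M le_rfl) B) := by
    unfold Fms.vv
    rw [prs_Q]
  have hm := mean_eq (Z.cl f.L).sp (fun k (ω : (f.L k).T.Ω) => Z.c * M + Z.e *
      gx Z.sys.Q k ((f.L k).p.π ω) ((f.y M le_rfl k).g ω))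
    (fun k (ω : (f.L k).T.Ω) => gx s.Q k ((Z.l k).p.π ((f.L k).p.π ω)) ((Z.out (f.y M le_rfl) k).g ω))
    (Z.c * M + Z.e * C + C') (by
      filter_upwards [hbd] with k hk ω hω
      have h1 := hk ω hω
      have h2 : 0 ≤ Z.c * M := mul_nonneg hc0 hM
      have h4 : 0 ≤ gx Z.sys.Q k ((f.L k).p.π ω) ((f.y M le_rfl k).g ω) := h1.1
      have h5 : gx Z.sys.Q k ((f.L k).p.π ω) ((f.y M le_rfl k).g ω) ≤ C := h1.2
      have h3 := mul_nonneg he0.le h4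
      have h6 := mul_le_mul_of_nonneg_left h5 he0.le
      rw [abs_of_nonneg (add_nonneg h2 h3)]
      linarith) (by
      filter_upwards [hbd'] with k hk ω hω
      have h1 := hk ω hω
      have h2 : 0 ≤ Z.c * M := mul_nonneg hc0 hM
      have h3 := mul_nonneg he0.le hC
      have h4 : 0 ≤ gx s.Q k ((Z.l k).p.π ((f.L k).p.π ω)) ((Z.out (f.y M le_rfl) k).g ω) := h1.1
      have h5 : gx s.Q k ((Z.l k).p.π ((f.L k).p.π ω)) ((Z.out (f.y M le_rfl) k).g ω) ≤ C' := h1.2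
      rw [abs_of_nonneg h4]
      linarith) (gx_out_typ Z hD hy) hB
  have hUy := vx_UB hyB.1.1
  have e1 : ul (fun k => ∑ ω, (((Z.cl f.L).sp.F k).rest (B k)).μ ω * (Z.c * M + Z.e *
      gx Z.sys.Q k ((f.L k).p.π ω) ((f.y M le_rfl k).g ω))) =
      Z.c * M + Z.e * ul (vx (Z.sys.Q.im f.L.pj B) (reS (f.y M le_rfl) B)) := by
    refine ul_eq (Tendsto.congr (fun k => ?_) (((ul_tendsto hUy).const_mul Z.e).const_add (Z.c * M)))
    have h2 : ∑ ω, ((f.L k).T.rest (B k)).μ ω = 1 := ((f.L k).T.rest (B k)).ms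
    have h3 : ∑ ω, ((f.L k).T.rest (B k)).μ ω * (Z.c * M + Z.e *
        gx Z.sys.Q k ((f.L k).p.π ω) ((f.y M le_rfl k).g ω)) =
        Z.c * M + Z.e * ∑ ω, ((f.L k).T.rest (B k)).μ ω * gx Z.sys.Q k ((f.L k).p.π ω) ((f.y M le_rfl k).g ω) := by
      have h4 : Z.c * M = ∑ ω, ((f.L k).T.rest (B k)).μ ω * (Z.c * M) := by rw [← Finset.sum_mul, h2, one_mul]
      conv_rhs => rw [h4]
      rw [Finset.mul_sum, ← Finset.sum_add_distrib]
      exact Finset.sum_congr rfl fun ω _ => by ring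
    exact h3.symm
  have e2 : ul (fun k => ∑ ω, (((Z.cl f.L).sp.F k).rest (B k)).μ ω *
      gx s.Q k ((Z.l k).p.π ((f.L k).p.π ω)) ((Z.out (f.y M le_rfl) k).g ω)) =
      ul (vx (s.Q.im (Z.cl f.L).pj B) (reS (Z.out (f.y M le_rfl)) B)) := rfl
  have h6 : Z.e * M = M - Z.c * M := by
    have : Z.e = 1 - Z.c := rfl
    rw [this]
    ring
  have h7 : Z.c * M + Z.e * ul (vx (Z.sys.Q.im f.L.pj B) (reS (f.y M le_rfl) B)) =
      ul (vx (s.Q.im (Z.cl f.L).pj B) (reS (Z.out (f.y M le_rfl)) B)) := e1.symm.trans (hm.trans e2)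
  rw [h1, h2, vol_eq, vol_eq, mul_sub, h6]
  linarith

end mean

section lin

variable {g r : ℕ} {s : MSys S M (lin g) (Fin r)} (Z : ZM s) (f : Fms Z.sys D)

/-- MEAN EXPONENTS, inner coordinates -/
theorem lS_int (hD : 1 ≤ D) (hZ : s.IsKap Z.c Z.l) {B : ∀ k, ((Z.cl f.L).sp.F k).Ω → Prop}
    (hB : 0 < ul ((Z.cl f.L).sp.pr B)) (j : Fin M) (hst : STm D j.val (lin g) (Fin r))
    (hst' : STm D (j.val + 1) (lin g) (Fin r)) : mnB (Z.cl f.L).sp B (lS Z f j) =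
      1 - HS s (Z.cl f.L) B (j.val + 1) j.isLt + HS s (Z.cl f.L) B j.val j.isLt.le := by
  have ht := Z.Con_zero hZ
  have hB' : 0 < ul (f.L.sp.pr B) := hB
  have h0 : mnB (Z.cl f.L).sp B (lS Z f j) = Z.c + Z.e * f.zz B j.val j.isLt := zz_mean Z f ht hB' j
  rw [h0, f.zz_int ht hD hB' j.val j.isLt hst hst', hh_HS Z f B hB', hh_HS Z f B hB']
  have he := Z.e_pos.ne'
  have h1 : Z.e = 1 - Z.c := rfl
  field_simp
  rw [h1]
  ring

/-- MEAN EXPONENT of the last coordinate -/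
theorem lS_last (hD : 1 ≤ D) (hZ : s.IsKap Z.c Z.l) {B : ∀ k, ((Z.cl f.L).sp.F k).Ω → Prop}
    (hB : 0 < ul ((Z.cl f.L).sp.pr B)) (j : Fin M) (hj : j.val + 1 = M) (hst : STm D j.val (lin g) (Fin r)) :
    mnB (Z.cl f.L).sp B (lS Z f j) =
      1 - (s.im (Z.cl f.L).pj B hB).vol D Z.c + HS s (Z.cl f.L) B j.val j.isLt.le := by
  have ht := Z.Con_zero hZ
  have hB' : 0 < ul (f.L.sp.pr B) := hB
  have h0 : mnB (Z.cl f.L).sp B (lS Z f j) = Z.c + Z.e * f.zz B j.val j.isLt := zz_mean Z f ht hB' j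
  have h2 : f.vv B (j.val + 1) j.isLt = f.vv B M le_rfl := by
    have h3 : ∀ N (hN : N ≤ M), N = M → f.vv B N hN = f.vv B M le_rfl := by
      intro N hN h
      subst h
      rfl
    exact h3 _ _ hj
  rw [h0, f.zz_eq ht hD hB' j.val j.isLt hst, h2, hh_HS Z f B hB', ← vv_vol Z f hD hZ hB]
  have he := Z.e_pos.ne'
  have h1 : Z.e = 1 - Z.c := rfl
  field_simp
  rw [h1]
  ring

/-- MEAN OF THE SUM -/
theorem lS_sum (hD : 1 ≤ D) (hZ : s.IsKap Z.c Z.l) (hst : ∀ d, d < M → STm D d (lin g) (Fin r))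
    {B : ∀ k, ((Z.cl f.L).sp.F k).Ω → Prop} (hB : 0 < ul ((Z.cl f.L).sp.pr B)) :
    ∑ j : Fin M, mnB (Z.cl f.L).sp B (lS Z f j) = M - (s.im (Z.cl f.L).pj B hB).vol D Z.c := by
  have ht := Z.Con_zero hZ
  have hB' : 0 < ul (f.L.sp.pr B) := hB
  have h0 : ∀ j : Fin M, mnB (Z.cl f.L).sp B (lS Z f j) = Z.c + Z.e * f.zz B j.val j.isLt := fun j =>
    zz_mean Z f ht hB' j
  have h1 := f.zz_sum ht hD hB' hst M le_rfl
  rw [Finset.sum_congr rfl fun j _ => h0 j, Finset.sum_add_distrib, ← Finset.mul_sum, h1, mul_sub,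
    vv_vol Z f hD hZ hB, Finset.sum_const, Finset.card_univ, Fintype.card_fin, nsmul_eq_mul]
  have h2 : Z.e = 1 - Z.c := rfl
  rw [h2]
  ring

end lin

end

end Pool.Agent.Helper4.FFR
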