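import Pool.Agent.Helper4.FFR.Sys
import Pool.Agent.Helper48.FFJ.Jeq

/-! FLAG ROWS (10): the sum of the exponents is the exponent of the determinant of the canonical form, pointwise. -/

set_option autoImplicit false

namespace Pool.Agent.Helper4.FFR

open Finset Filter Topology Matrix Pool.Agent.Helper69.RK Pool.Agent.Helper31.EC Pool.Agent.Helper31.EC.Sp
open Pool.Agent.Helper40.EL Pool.Agent.Helper89.LX Pool.Agent.Helper3.LF Pool.Agent.Helper84.MT
open Pool.Agent.Helper7.GZ Pool.Agent.Helper48.ROW Pool.Agent.Helper26.MZ Pool.Agent.Helper89.RAT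
open Pool.Agent.Helper14.MC (gx vx vol_eq vx_UB vol_opt_eq GQ_dom)
open Pool.Agent.Helper48.FFJ (dom_on jac_eq mean_gx)

noncomputable section

/-- the full event -/
theorem rest_true (F : FSp) (ω : F.Ω) : (F.rest (fun _ => True)).μ ω = F.μ ω := by
  have h1 : F.pb (fun _ => True) = 1 := by
    have h2 : F.pb (fun _ => True) = ∑ ω, res F.μ (fun _ => True) ω := rfl
    rw [h2]
    have h3 : ∀ ω : F.Ω, res F.μ (fun _ => True) ω = F.μ ω := fun ω => res_pos F.μ (fun _ => True) ω trivial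
    rw [Finset.sum_congr rfl fun ω _ => h3 ω]
    exact F.ms
  show F.restμ (fun _ => True) ω = F.μ ω
  rw [F.restμ_eq (fun _ => True) (by rw [h1]; exact one_ne_zero), h1, inv_one]
  show 1 * res F.μ (fun _ => True) ω = F.μ ω
  rw [one_mul]
  exact res_pos F.μ (fun _ => True) ω trivial

theorem pr_true (T : Sp) : ul (T.pr fun _ _ => True) = 1 := by
  have h1 : T.pr (fun _ _ => True) = fun _ => 1 := by
    funext k
    have h2 : T.pr (fun _ _ => True) k = ∑ ω, res (T.F k).μ (fun _ => True) ω := rfl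
    rw [h2]
    have h3 : ∀ ω : (T.F k).Ω, res (T.F k).μ (fun _ => True) ω = (T.F k).μ ω := fun ω =>
      res_pos (T.F k).μ (fun _ => True) ω trivial
    rw [Finset.sum_congr rfl fun ω _ => h3 ω]
    exact (T.F k).ms
  rw [h1, ul_const]

theorem sum_true (F : FSp) (q : F.Ω → ℝ) : ∑ ω, (F.rest (fun _ => True)).μ ω * q ω = ∑ ω, F.μ ω * q ω :=
  Finset.sum_congr rfl fun ω _ => by rw [rest_true]

section opt

variable {S : Sp} {M D : ℕ} {κ : Type}

/-- exponents of the determinants under dominance -/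
theorem gx_dom_le {Q : S.VV M} (k : ℕ) (ω : (S.F k).Ω) {c c' : ℝ} {A B : Matrix (Mon M D) (Mon M D) ℝ} (hA : Cpd c A)
    (hB : Cpd c' B) {e : ℝ} (he : 0 ≤ e) (h : ∀ v, qf B v ≤ 2 ^ (e * (S.F k).n) * qf A v) :
    gx Q k ω B ≤ gx Q k ω A + e * M := by
  have hn := (S.F k).pos
  have h2 := GQ_dom (S.dl 1 k) A B hA.1 hA.psd.2 hB.1 hB.psd.2 (Q.v k ω) (2 ^ (e * (S.F k).n))
    (Real.one_le_rpow (by norm_num) (by positivity)) h
  have h3 := one_le_GQ (S.dl 1 k) hA.1 hA.psd.2 (Q.v k ω)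
  have h4 := one_le_GQ (S.dl 1 k) hB.1 hB.psd.2 (Q.v k ω)
  have h5 := Real.logb_le_logb_of_le (b := 2) (by norm_num) (by linarith) h2
  rw [Real.logb_mul (by positivity) (by linarith), Real.logb_pow,
    Real.logb_rpow (by norm_num) (by norm_num)] at h5
  show Real.logb 2 (GQ (S.dl 1 k) B (Q.v k ω)) / (2 * (S.F k).n) ≤
    Real.logb 2 (GQ (S.dl 1 k) A (Q.v k ω)) / (2 * (S.F k).n) + e * M
  rw [← sub_le_iff_le_add', ← sub_div, div_le_iff₀ (by positivity)]
  have h6 : 0 ≤ (M : ℝ) * (e * (S.F k).n) := by positivity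
  linarith

/-- two optimal forms over one label have the same exponents -/
theorem gx_opt_typ [Finite κ] {A : κ → Part S} {Q : S.VV M} {x y : ∀ k, FD (S.F k) (Mon M D)}
    (hx : (gaq Q D).Optf A x) (hy : (gaq Q D).Optf A y) {L : Lab S} (hL : L.DMf A) (Rx : Rfn L (lb x))
    (Ry : Rfn L (lb y)) (e : ℝ) (he : 0 < e) : Typ (S := L.sp) (fun k (w : (L k).T.Ω) =>
      |gx Q k ((L k).p.π w) ((y k).g ((Ry.q k).π w)) - gx Q k ((L k).p.π w) ((x k).g ((Rx.q k).π w))| ≤ e) := by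
  obtain ⟨C, hC, hbx⟩ := gx_bd hx.1
  obtain ⟨C', hC', hby⟩ := gx_bd hy.1
  refine typ_abs L.sp (fun k (w : (L k).T.Ω) => gx Q k ((L k).p.π w) ((y k).g ((Ry.q k).π w)))
    (fun k (w : (L k).T.Ω) => gx Q k ((L k).p.π w) ((x k).g ((Rx.q k).π w))) (C + C') ?_ ?_ ?_ ?_ e he
  · filter_upwards [hby] with k hk
    intro (w : (L k).T.Ω) hw
    have h1 := hk _ ((Ry.q k).supp w hw)
    have h2 : (y k).l.p.π ((Ry.q k).π w) = (L k).p.π w := Ry.hπ k w hw
    rw [h2] at h1
    show |gx Q k ((L k).p.π w) ((y k).g ((Ry.q k).π w))| ≤ C + C'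
    rw [abs_of_nonneg h1.1]
    linarith [h1.2]
  · filter_upwards [hbx] with k hk
    intro (w : (L k).T.Ω) hw
    have h1 := hk _ ((Rx.q k).supp w hw)
    have h2 : (x k).l.p.π ((Rx.q k).π w) = (L k).p.π w := Rx.hπ k w hw
    rw [h2] at h1
    show |gx Q k ((L k).p.π w) ((x k).g ((Rx.q k).π w))| ≤ C + C'
    rw [abs_of_nonneg h1.1]
    linarith [h1.2]
  · intro d hd
    have hd' : 0 < d / (M + 1) := by positivity
    have h1 := dom_on hx hy.1 hL Rx Ry (d / (M + 1)) hd'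
    refine Typ.mono (S := L.sp) h1 ?_
    filter_upwards [hx.1 1 one_pos, hy.1 1 one_pos] with k a b
    intro (w : (L k).T.Ω) hw h
    have h2 := gx_dom_le (Q := Q) k ((L k).p.π w) (a.2.1 _ ((Rx.q k).supp w hw)).1 (b.2.1 _ ((Ry.q k).supp w hw)).1
      hd'.le h
    have h3 : d / (M + 1) * M ≤ d := by
      rw [div_mul_eq_mul_div, div_le_iff₀ (by positivity)]
      nlinarith
    show gx Q k ((L k).p.π w) ((y k).g ((Ry.q k).π w)) ≤ gx Q k ((L k).p.π w) ((x k).g ((Rx.q k).π w)) + d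
    linarith
  · have h1 := vol_opt_eq hx hy
    rw [vol_eq, vol_eq] at h1
    have e1 : (fun k => ∑ w, (L k).T.μ w * gx Q k ((L k).p.π w) ((x k).g ((Rx.q k).π w))) = vx Q x :=
      funext fun k => mean_gx Rx k
    have e2 : (fun k => ∑ w, (L k).T.μ w * gx Q k ((L k).p.π w) ((y k).g ((Ry.q k).π w))) = vx Q y :=
      funext fun k => mean_gx Ry k
    have h2 : ul (vx Q x) ≤ ul (vx Q y) := by linarith
    rw [← e1, ← e2] at h2
    exact h2

end opt

section tot

variable {S : Sp} {M D g r : ℕ} {s : MSys S M (lin g) (Fin r)}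

/-- the sum of the exponents in a connected system -/
theorem Fms.tot {t : MSys S M (lin g) (Fin r)} (f : Fms t D) (ht : t.Con 0) (hD : 1 ≤ D)
    (hst : ∀ d, d < M → STm D d (lin g) (Fin r)) (e : ℝ) (he : 0 < e) :
    Typ (S := f.L.sp) (fun k (ω : (f.L k).T.Ω) =>
      |∑ j : Fin M, f.lz j k ω - gx t.Q k ((f.L k).p.π ω) ((f.y M le_rfl k).g ω)| ≤ e) := by
  have hx := f.cyM ht
  have hxM : (gaq t.Q D).Optf (t.cnd 0) (f.x M le_rfl) := (prs_can.1 (f.can M le_rfl)).1
  have h1 := jac_eq (Q := t.Q) hxM (fun j : Fin M => (prs t (Nat.succ_le_of_lt j.isLt)).Q)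
    (fun j k ω a => prs_v t (Nat.succ_le_of_lt j.isLt) k ω a) (fun j => f.x (j.val + 1) j.isLt)
    (fun j => (f.can (j.val + 1) j.isLt).1.1) (L := f.L) (f.trv.dm _) (f.R M le_rfl)
    (fun j => f.R (j.val + 1) j.isLt) ?_ e he
  · exact h1
  · -- the means
    have hB : 0 < ul (f.L.sp.pr fun _ _ => True) := by
      rw [pr_true]
      exact one_pos
    have h2 := f.zz_sum ht hD hB hst M le_rfl
    have h3 : ∀ j : Fin M, f.zz (fun _ _ => True) j.val j.isLt = ul (fun k => ∑ ω, (f.L k).T.μ ω * f.lz j k ω) := by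
      intro j
      have h4 : f.zz (fun _ _ => True) j.val j.isLt =
        ul (fun k => ∑ ω, ((f.L k).T.rest (fun _ => True)).μ ω * f.lz j k ω) := rfl
      rw [h4]
      exact congrArg ul (funext fun k => sum_true (f.L k).T (f.lz j k))
    have h5 : f.vv (fun _ _ => True) M le_rfl = M - ul (vx t.Q (f.x M le_rfl)) := by
      have h6 : f.vv (fun _ _ => True) M le_rfl = M - ul (fun k => ∑ ω, ((f.L k).T.rest (fun _ => True)).μ ω *
        gx (prs t le_rfl).Q k ((f.L k).p.π ω) ((f.y M le_rfl k).g ω)) := rfl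
      rw [h6]
      have h7 : (fun k => ∑ ω, ((f.L k).T.rest (fun _ => True)).μ ω *
        gx (prs t le_rfl).Q k ((f.L k).p.π ω) ((f.y M le_rfl k).g ω)) = vx t.Q (f.x M le_rfl) := by
        funext k
        have h8 := sum_true (f.L k).T (fun ω => gx (prs t le_rfl).Q k ((f.L k).p.π ω) ((f.y M le_rfl k).g ω))
        refine h8.trans ?_
        rw [prs_Q]
        exact mean_gx (f.R M le_rfl) k
      rw [h7]
    have hU : ∀ j : Fin M, UB (fun k => ∑ ω, (f.L k).T.μ ω * f.lz j k ω) := fun j =>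
      zv_UB (Fin.last j.val) (f.cy ht (j.val + 1) j.isLt).1.1
    have h9 : ul (fun k => ∑ w, (f.L k).T.μ w * ∑ j : Fin M, f.lz j k w) =
        ∑ j : Fin M, ul (fun k => ∑ ω, (f.L k).T.μ ω * f.lz j k ω) := by
      have t1 : Tendsto (fun k => ∑ j : Fin M, ∑ ω, (f.L k).T.μ ω * f.lz j k ω) UF
          (𝓝 (∑ j : Fin M, ul (fun k => ∑ ω, (f.L k).T.μ ω * f.lz j k ω))) :=
        tendsto_finsetSum _ fun j _ => ul_tendsto (hU j)
      refine ul_eq (Tendsto.congr (fun k => ?_) t1)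
      rw [Finset.sum_comm]
      exact Finset.sum_congr rfl fun ω _ => (Finset.mul_sum _ _ _).symm
    have h10 : ∑ j : Fin M, f.zz (fun _ _ => True) j.val j.isLt = M - f.vv (fun _ _ => True) M le_rfl := h2
    rw [Finset.sum_congr rfl fun j _ => h3 j, h5] at h10
    have h11 : ul (vx t.Q (f.x M le_rfl)) = ul (fun k => ∑ w, (f.L k).T.μ w * ∑ j : Fin M, f.lz j k w) := by
      rw [h9]
      linarith
    exact h11.le

end tot

end

end Pool.Agent.Helper4.FFR
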