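import Pool.Agent.Helper4.FFR.Mean

/-! FLAG ROWS (6): numbers of a connected zoom as numbers of the system. -/

set_option autoImplicit false

namespace Pool.Agent.Helper4.FFR

open Finset Filter Topology Matrix Pool.Agent.Helper69.RK Pool.Agent.Helper31.EC Pool.Agent.Helper31.EC.Sp
open Pool.Agent.Helper40.EL Pool.Agent.Helper89.LX Pool.Agent.Helper3.LF Pool.Agent.Helper84.MT
open Pool.Agent.Helper7.GZ Pool.Agent.Helper48.ROW Pool.Agent.Helper26.MZ Pool.Agent.Helper89.RAT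
open Pool.Agent.Helper14.MC (gx vx vol_eq vx_UB)

noncomputable section

variable {S : Sp} {M N D : ℕ} {E : ℕ → ℕ} {ι : Type}

/-- the numbers of a point over a label -/
theorem num_tend (P : S.VV N) (l : Lab S) :
    Tendsto (fun k => h ((l k).p.map (fc (Setoid.ker (P.cellv 1 k)))) (l k).v / (S.F k).n) UF
      (𝓝 (H (up1 l (P.dg 1)))) := by
  have e1 : P.dg 1 = cl (P.bdd 1).toInf := io_eq (P.bdd 1)
  have hU : UB (fun k => h ((l k).p.map (rpI (P.bdd 1).toInf k)) (l k).v / (S.F k).n) := by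
    refine UB.sandwich (UB_const 0) (rpI_Bd (P.bdd 1).toInf) ?_ ?_
    · exact Eventually.of_forall fun k => div_nonneg (h_nonneg _ _) (S.F k).pos.le
    · refine Eventually.of_forall fun k => div_le_div_of_nonneg_right ?_ (S.F k).pos.le
      rw [← (l k).p.H_map]
      exact h_le_H _ _
  rw [e1, H_up1_cl]
  exact ul_tendsto hU

section zoom

variable {s : MSys S M E ι} (Z : ZM s)

/-- the entropies of a zoom -/
theorem H_zoom' (P : S.VV N) (hP : ∀ k ω ω', (Z.l k).T.μ ω ≠ 0 → (Z.l k).T.μ ω' ≠ 0 → (Z.l k).V ω ω' →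
    (Z.l k).T.Z ω ω' → P.cellv Z.c k ((Z.l k).p.π ω) = P.cellv Z.c k ((Z.l k).p.π ω')) (y : Lab Z.sp)
    (A : ∀ k, (y.sp.F k).Ω → Prop) (hA : 0 < ul (y.sp.pr A)) :
    H (up1 (y.im A) (((Z.fr P).im y.pj A).dg 1)) =
      H (up1 ((Z.cl y).im A) ((P.im (Z.cl y).pj A).dg 1)) / Z.e := by
  refine H_zoom Z P hP y A hA ?_
  refine Tendsto.congr (fun k => ?_) (num_tend (P.im (Z.cl y).pj A) ((Z.cl y).im A))
  rfl

/-- the points of the projections of a zoom -/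
theorem zfr_prs (hN : N ≤ M) (k : ℕ) (ω : (Z.sp.F k).Ω) (i : Fin N) :
    (Z.fr (prs s hN).Q).v k ω i = (prs Z.sys hN).Q.v k ω i := by
  have a2 := prs_v Z.sys hN k ω i
  refine Eq.trans ?_ a2.symm
  show (prs s hN).Q.v k ((Z.l k).p.π ω) i / S.dl Z.c k -
    ⌊(prs s hN).Q.v k ((Z.l k).p.π ω) i / S.dl Z.c k⌋ = _
  rw [prs_v]
  rfl

variable [Finite ι] (f : Fms Z.sys D)

/-- the label of the system -/
theorem kapS (hZ : s.IsKap Z.c Z.l) : s.IsKap Z.c (Z.cl f.L) := by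
  have h1 := Z.IsKap_cl le_rfl (con_kap (Z.Con_zero hZ) (f.trv.dm _))
  rw [mul_zero, add_zero] at h1
  exact h1

/-- the canonical form of the system -/
theorem canS (hZ : s.IsKap Z.c Z.l) : s.IsCan D Z.c (Z.out (f.y M le_rfl)) := by
  have h1 := Z.can_out le_rfl (f.cyM (Z.Con_zero hZ))
  rw [mul_zero, add_zero] at h1
  exact h1

/-- the entropy of the first `N` coordinates over the label on an event -/
def HS (s : MSys S M E ι) (L : Lab S) (B : ∀ k, (L.sp.F k).Ω → Prop) (N : ℕ) (hN : N ≤ M) : ℝ :=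
  H (up1 (L.im B) (((prs s hN).Q.im L.pj B).dg 1))

theorem hh_HS (B : ∀ k, (f.L.sp.F k).Ω → Prop) (hB : 0 < ul (f.L.sp.pr B)) (N : ℕ) (hN : N ≤ M) :
    f.hh B N hN = HS s (Z.cl f.L) B N hN / Z.e := by
  have h1 := H_zoom' Z (prs s hN).Q (fun k ω ω' a b c1 c2 => by
    have h2 := Z.cell k ω ω' a b c1 c2
    funext i
    show ⌊(prs s hN).Q.v k ((Z.l k).p.π ω) i / S.dl Z.c k⌋ = ⌊(prs s hN).Q.v k ((Z.l k).p.π ω') i / S.dl Z.c k⌋
    rw [prs_v, prs_v]
    exact congrFun h2 (Fin.castLE hN i)) f.L B hB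
  have h2 : ((Z.fr (prs s hN).Q).im f.L.pj B).dg 1 = ((prs Z.sys hN).Q.im f.L.pj B).dg 1 := by
    apply ZM.dg_congr_v
    intro k ω i
    exact zfr_prs Z hN k _ i
  rw [h2] at h1
  exact h1

/-- EXPONENTS of a form of the zoom in the system -/
theorem gx_out_typ (hD : 1 ≤ D) {y : ∀ k, FD (Z.sp.F k) (Mon M D)} (hy : Z.sys.IsCan D 0 y)
    (e : ℝ) (he : 0 < e) : Typ (S := (Z.cl (lb y)).sp) (fun k (ω : (y k).l.T.Ω) =>
      |(Z.c * M + Z.e * gx Z.sys.Q k ((y k).l.p.π ω) ((y k).g ω)) -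
        gx s.Q k ((Z.l k).p.π ((y k).l.p.π ω)) ((Z.out y k).g ω)| ≤ e) := by
  have hx : s.IsCan D (Z.c + Z.e * 0) (Z.out y) := Z.can_out le_rfl hy
  obtain ⟨C, hC, hbd⟩ := gx_bd hy.1.1
  obtain ⟨C', hC', hbd'⟩ := gx_bd hx.1.1
  have he0 := Z.e_pos
  have hc0 := Z.h0
  have hM : (0 : ℝ) ≤ M := Nat.cast_nonneg M
  refine typ_abs (Z.cl (lb y)).sp (fun k (ω : (y k).l.T.Ω) => Z.c * M + Z.e * gx Z.sys.Q k ((y k).l.p.π ω) ((y k).g ω))
    (fun k (ω : (y k).l.T.Ω) => gx s.Q k ((Z.l k).p.π ((y k).l.p.π ω)) ((Z.out y k).g ω))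
    (Z.c * M + Z.e * C + C') ?_ ?_ ?_ ?_ e he
  · filter_upwards [hbd] with k hk ω hω
    have h1 := hk ω hω
    have h2 : 0 ≤ Z.c * M := mul_nonneg hc0 hM
    have h3 := mul_nonneg he0.le h1.1
    have h4 := mul_le_mul_of_nonneg_left h1.2 he0.le
    rw [abs_of_nonneg (by linarith)]
    linarith
  · filter_upwards [hbd'] with k hk ω hω
    have h1 := hk ω hω
    have h2 : 0 ≤ Z.c * M := mul_nonneg hc0 hM
    have h3 := mul_nonneg he0.le hC
    have h4 : 0 ≤ gx s.Q k ((Z.l k).p.π ((y k).l.p.π ω)) ((Z.out y k).g ω) := h1.1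
    have h5 : gx s.Q k ((Z.l k).p.π ((y k).l.p.π ω)) ((Z.out y k).g ω) ≤ C' := h1.2
    rw [abs_of_nonneg h4]
    linarith
  · intro d hd
    have t1 := Z.out_typ hy.1.1
    have t2 : Tendsto (fun k => (M : ℝ) / 2 * (1 / (S.F k).n)) UF (𝓝 0) := by
      have h1 := (S.div_n_tendsto 1).const_mul ((M : ℝ) / 2)
      rw [mul_zero] at h1
      exact h1
    refine Typ.mono (S := (Z.cl (lb y)).sp) (E := fun k (ω : (y k).l.T.Ω) =>
      Cpd ((gaq s.Q D).cp k) (Z.zfm y k ω)) t1 ?_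
    filter_upwards [t2.eventually (gt_mem_nhds hd), hy.1.1 1 one_pos] with k a b
    intro (ω : (y k).l.T.Ω) hω h
    have h1 := Z.gx_out hD y k ω (b.2.1 ω hω).1
    have h2 := Z.out_g k ω h
    show Z.c * M + Z.e * gx Z.sys.Q k ((y k).l.p.π ω) ((y k).g ω) ≤
      gx s.Q k ((Z.l k).p.π ((y k).l.p.π ω)) ((Z.out y k).g ω) + d
    rw [h2]
    linarith
  · have h1 := Z.vol_can hD le_rfl hy hx
    rw [vol_eq, vol_eq] at h1
    have hUy := vx_UB hy.1.1
    have e1 : ul (fun k => ∑ ω, ((Z.cl (lb y)).sp.F k).μ ω *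
        (fun (ω : (y k).l.T.Ω) => Z.c * M + Z.e * gx Z.sys.Q k ((y k).l.p.π ω) ((y k).g ω)) ω) =
        Z.c * M + Z.e * ul (vx Z.sys.Q y) := by
      refine ul_eq (Tendsto.congr (fun k => ?_) (((ul_tendsto hUy).const_mul Z.e).const_add (Z.c * M)))
      have h2 : ∑ ω, (y k).l.T.μ ω = 1 := (y k).l.T.ms
      have h3 : ∑ ω, (y k).l.T.μ ω * (Z.c * M + Z.e * gx Z.sys.Q k ((y k).l.p.π ω) ((y k).g ω)) =
          Z.c * M + Z.e * vx Z.sys.Q y k := by
        unfold vx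
        rw [Finset.mul_sum]
        have h4 : Z.c * M = ∑ ω, (y k).l.T.μ ω * (Z.c * M) := by rw [← Finset.sum_mul, h2, one_mul]
        conv_rhs => rw [h4]
        rw [← Finset.sum_add_distrib]
        exact Finset.sum_congr rfl fun ω _ => by ring
      exact h3.symm
    have e2 : ul (fun k => ∑ ω, ((Z.cl (lb y)).sp.F k).μ ω *
        (fun (ω : (y k).l.T.Ω) => gx s.Q k ((Z.l k).p.π ((y k).l.p.π ω)) ((Z.out y k).g ω)) ω) =
        ul (vx s.Q (Z.out y)) := rfl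
    refine (le_of_eq e2).trans (le_trans (le_of_eq ?_) (le_of_eq e1.symm))
    have h5 := Z.c_add_e
    have h6 : Z.e * M = M - Z.c * M := by
      have : Z.e = 1 - Z.c := rfl
      rw [this]
      ring
    rw [mul_sub, h6] at h1
    linarith

end zoom

end

end Pool.Agent.Helper4.FFR
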